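import Pool.Agent.Lib.MP_d470cf_nt.Loc.Disc
import Pool.Agent.Lib.MP_d470cf_nt.FieldCount

set_option autoImplicit false

open NumberField Module NumberField.Units IntermediateField

namespace Pool.Agent.Lib.MP_d470cf_nt.Loc

open Pool.Agent.Lib.MP_d470cf_nt

/-- The local condition on the trace `t` of a fundamental unit of norm `N`. -/
def LC (N : ℤ) (p : ℕ) (t : ℤ) : Prop :=
  (¬ (p : ℤ) ∣ t ^ 2 - 4 * N ∧ (p : ℤ) ^ 2 ∣ V N p t - t) ∨
    ∃ j : ℕ, 2 ≤ j ∧ (p : ℤ) ^ (2 * j) ∣ t ^ 2 - 4 * N ∧ ¬ (p : ℤ) ^ (2 * j + 1) ∣ t ^ 2 - 4 * N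

theorem pow_two_mul_of_even (p : ℕ) (hp : p.Prime) (f D : ℤ) (hD : ¬ (p : ℤ) ∣ D) (k : ℕ) :
    (p : ℤ) ^ (2 * k) ∣ f ^ 2 * D ↔ (p : ℤ) ^ k ∣ f := by
  have hcop : IsCoprime ((p : ℤ) ^ (2 * k)) D :=
    ((Nat.prime_iff_prime_int.1 hp).coprime_iff_not_dvd.2 hD).pow_left
  rw [mul_comm 2 k, pow_mul] at hcop ⊢
  constructor
  · intro h
    exact (Int.pow_dvd_pow_iff two_ne_zero).1 (hcop.dvd_of_dvd_mul_right h)
  · intro h
    exact dvd_mul_of_dvd_left (pow_dvd_pow_of_dvd h 2) _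

/-- The exact power of `p` in `f ^ 2 * D` for `p ∤ D` is even. -/
theorem exists_even_val (p : ℕ) (hp : p.Prime) (f D : ℤ) (hf : f ≠ 0) (hD : ¬ (p : ℤ) ∣ D) :
    ∃ j : ℕ, (p : ℤ) ^ (2 * j) ∣ f ^ 2 * D ∧ ¬ (p : ℤ) ^ (2 * j + 1) ∣ f ^ 2 * D ∧
      (∀ k, (p : ℤ) ^ k ∣ f ↔ k ≤ j) := by
  have hpZ := Nat.prime_iff_prime_int.1 hp
  have hfin : FiniteMultiplicity (p : ℤ) f :=
    Int.finiteMultiplicity_iff.2 ⟨by simpa using hp.ne_one, hf⟩
  obtain ⟨j, hj⟩ : ∃ j, j = multiplicity (p : ℤ) f := ⟨_, rfl⟩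
  have h1 : (p : ℤ) ^ j ∣ f := by rw [hj]; exact pow_multiplicity_dvd _ _
  have h2 : ¬ (p : ℤ) ^ (j + 1) ∣ f := by
    rw [hj]; exact hfin.not_pow_dvd_of_multiplicity_lt (Nat.lt_succ_self _)
  refine ⟨j, (pow_two_mul_of_even p hp f D hD j).2 h1, ?_, ?_⟩
  · intro h
    obtain ⟨g, hg⟩ := h1
    rw [hg] at h
    have e : ((p : ℤ) ^ j * g) ^ 2 * D = (p : ℤ) ^ (2 * j) * (g ^ 2 * D) := by ring
    rw [e, pow_succ] at h
    have h3 : (p : ℤ) ∣ g ^ 2 * D :=
      (mul_dvd_mul_iff_left (pow_ne_zero _ (by exact_mod_cast hp.ne_zero))).1 h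
    rcases hpZ.dvd_or_dvd h3 with h4 | h4
    · apply h2
      rw [hg, pow_succ]
      exact mul_dvd_mul_left _ (hpZ.dvd_of_dvd_pow h4)
    · exact hD h4
  · intro k
    constructor
    · intro hk
      by_contra hcon
      push Not at hcon
      exact h2 ((pow_dvd_pow _ hcon).trans hk)
    · intro hk
      exact (pow_dvd_pow _ hk).trans h1

theorem neg_one_even (p : ℕ) (hp : p.Prime) (hp2 : p ≠ 2) (t : ℤ)
    (h : (p : ℤ) ∣ t ^ 2 - 4 * (-1)) : Even ((p - 1) / 2) := by
  have : Fact p.Prime := ⟨hp⟩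
  have h2p := not_dvd_two p hp hp2
  have h2 : ((2 : ℤ) : ZMod p) ≠ 0 := by
    rw [Ne, ZMod.intCast_zmod_eq_zero_iff_dvd]; exact h2p
  have h3 : ((t ^ 2 - 4 * (-1) : ℤ) : ZMod p) = 0 := by
    rw [ZMod.intCast_zmod_eq_zero_iff_dvd]; exact h
  have h4 : IsSquare (-1 : ZMod p) := by
    refine ⟨(t : ZMod p) / 2, ?_⟩
    push_cast at h2 h3
    field_simp
    linear_combination -h3
  have h5 := ZMod.exists_sq_eq_neg_one_iff.1 h4
  have hodd : p % 2 = 1 := by
    rcases hp.eq_two_or_odd with h | h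
    · exact absurd h hp2
    · exact h
  rw [Nat.even_iff]
  omega

/-- Criterion for Wall-Sun-Sun primes in terms of the fundamental unit. -/
theorem isWSS_iff (K : Type*) [Field K] [NumberField K] (hK : finrank ℚ K = 2)
    (α : (𝓞 K)ˣ) (hα : ∀ u : (𝓞 K)ˣ, ∃ n : ℤ, u = α ^ n ∨ u = -α ^ n)
    (t N : ℤ) (ht : Algebra.trace ℤ (𝓞 K) (α : 𝓞 K) = t) (hN' : Algebra.norm ℤ (α : 𝓞 K) = N)
    (hN : N = 1 ∨ N = -1) (hne : t ^ 2 - 4 * N ≠ 0)
    (p : ℕ) (hp : p.Prime) (hp2 : p ≠ 2) : IsWSS K p ↔ LC N p t := by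
  have : Fact p.Prime := ⟨hp⟩
  have hodd : p % 2 = 1 := by
    rcases hp.eq_two_or_odd with h | h
    · exact absurd h hp2
    · exact h
  have hpZ := Nat.prime_iff_prime_int.1 hp
  have hq := quad_eq K hK (α : 𝓞 K)
  obtain ⟨f, hf⟩ := discr_rel K hK (α : 𝓞 K)
  rw [ht, hN'] at hq hf
  have hf0 : f ≠ 0 := by
    intro h; rw [h] at hf; apply hne; rw [hf]; ring
  have hinv : ((α⁻¹ : (𝓞 K)ˣ) : 𝓞 K) * (α : 𝓞 K) = 1 := by simp
  by_cases hd : (p : ℤ) ∣ t ^ 2 - 4 * N
  · -- `p` divides `t ^ 2 - 4 N`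
    by_cases hD : (p : ℤ) ∣ discr K
    · -- ramified
      constructor
      · intro h; exact absurd hD h.2.2.1
      · rintro (h | ⟨j, hj, h1, h2⟩)
        · exact absurd hd h.1
        · exfalso
          obtain ⟨D', hD'⟩ := hD
          have hD'p : ¬ (p : ℤ) ∣ D' := by
            intro hh
            obtain ⟨D'', hD''⟩ := hh
            exact not_sq_dvd_discr K hK p hp hp2 ⟨D'', by rw [hD', hD'']; ring⟩
          obtain ⟨i, i1, i2, i3⟩ := exists_even_val p hp f D' hf0 hD'p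
          have e : t ^ 2 - 4 * N = (p : ℤ) * (f ^ 2 * D') := by rw [hf, hD']; ring
          have hp0 : (p : ℤ) ≠ 0 := by exact_mod_cast hp.ne_zero
          rw [e] at h1 h2
          obtain ⟨m, hm⟩ : ∃ m, 2 * j = m + 1 := ⟨2 * j - 1, by omega⟩
          have h1' : (p : ℤ) ^ m ∣ f ^ 2 * D' := by
            rw [hm, pow_succ'] at h1
            exact (mul_dvd_mul_iff_left hp0).1 h1
          have h2' : ¬ (p : ℤ) ^ (2 * j) ∣ f ^ 2 * D' := by
            intro hh
            apply h2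
            rw [pow_succ']
            exact mul_dvd_mul_left _ hh
          have h3 : m ≤ 2 * i := by
            by_contra hcon
            push Not at hcon
            exact i2 ((pow_dvd_pow _ hcon).trans h1')
          have h4 : 2 * i < 2 * j := by
            by_contra hcon
            push Not at hcon
            exact h2' ((pow_dvd_pow _ hcon).trans i1)
          omega
    · -- `p` divides the conductor
      obtain ⟨i, i1, i2, i3⟩ := exists_even_val p hp f (discr K) hf0 hD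
      rw [← hf] at i1 i2
      have hi0 : 1 ≤ i := by
        by_contra hcon
        have : i = 0 := by omega
        rw [this] at i2
        exact i2 (by simpa using hd)
      have hd2 : (p : ℤ) ^ 2 ∣ t ^ 2 - 4 * N := (pow_dvd_pow _ (by omega)).trans i1
      have hLC : LC N p t ↔ 2 ≤ i := by
        constructor
        · rintro (h | ⟨j, hj, h1, h2⟩)
          · exact absurd hd h.1
          · by_contra hcon
            apply i2
            exact (pow_dvd_pow _ (by omega)).trans h1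
        · intro h
          exact Or.inr ⟨i, h, i1, i2⟩
      have hδ : (p : 𝓞 K) ^ 2 ∣ 2 * (α : 𝓞 K) - t ↔ 2 ≤ i := by
        have hδ2 : (2 * (α : 𝓞 K) - t) ^ 2 = ((t ^ 2 - 4 * N : ℤ) : 𝓞 K) := by
          push_cast; linear_combination 4 * hq
        rw [← IsIntegrallyClosed.pow_dvd_pow_iff (n := 2) two_ne_zero, hδ2]
        have e : ((p : 𝓞 K) ^ 2) ^ 2 = (((p : ℤ) ^ 4 : ℤ) : 𝓞 K) := by push_cast; ring
        rw [e]
        constructor
        · intro h
          have h1 := int_dvd_of_dvd K hK _ _ h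
          by_contra hcon
          exact i2 ((pow_dvd_pow _ (by omega)).trans h1)
        · intro h
          have h1 : (p : ℤ) ^ 4 ∣ t ^ 2 - 4 * N := (pow_dvd_pow _ (by omega)).trans i1
          obtain ⟨c, hc⟩ := h1
          exact ⟨(c : 𝓞 K), by rw [hc]; push_cast; ring⟩
      rw [hLC, ← hδ]
      have hj0 : jacobiSym (discr K) p = 1 ∨ jacobiSym (discr K) p = -1 := by
        rw [← jacobiSym.legendreSym.to_jacobiSym]
        apply legendreSym.eq_one_or_neg_one
        rw [Ne, ZMod.intCast_zmod_eq_zero_iff_dvd]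
        exact hD
      have hNsplit : N ^ ((p - 1) / 2) = 1 := by
        rcases hN with h | h
        · rw [h]; simp
        · rw [h]; rw [h] at hd; exact (neg_one_even p hp hp2 t hd).neg_one_pow
      have hNinert : N ^ (p + 1) = 1 := by
        rcases hN with h | h
        · rw [h]; simp
        · rw [h]; exact Even.neg_one_pow (Nat.even_iff.2 (by omega))
      have e1 : p - 1 = 2 * ((p - 1) / 2) := by omega
      have e2 : 2 * p + 2 = 2 * (p + 1) := by ring
      have hp3 := hp.two_le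
      have hk1 : ¬ p ∣ (p - 1) / 2 := by
        intro h
        have := Nat.le_of_dvd (by omega) h
        omega
      have hk2 : ¬ p ∣ p + 1 := by
        intro h
        have h1 : p ∣ 1 := (Nat.dvd_add_right (dvd_refl p)).1 h
        exact hp.one_lt.ne' (Nat.dvd_one.1 h1)
      have c1 := pow_sub_one_iff p hp hp2 t N hN (α : 𝓞 K) hq hd2 _ hk1 hNsplit
      have c2 := pow_sub_one_iff p hp hp2 t N hN (α : 𝓞 K) hq hd2 _ hk2 hNinert
      rw [← e1] at c1
      rw [← e2] at c2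
      constructor
      · rintro ⟨-, -, -, h1, h2⟩
        rcases hj0 with h | h
        · exact c1.1 (h1 h α)
        · exact c2.1 (h2 h α)
      · intro h
        refine ⟨hp, hp2, hD, fun _ u => ?_, fun _ u => ?_⟩
        · exact zpow_dvd _ α (p - 1) (Nat.even_iff.2 (by omega)) (c1.2 h) u (hα u)
        · exact zpow_dvd _ α (2 * p + 2) (Nat.even_iff.2 (by omega)) (c2.2 h) u (hα u)
  · -- `p` does not divide `t ^ 2 - 4 N`
    have hLC : LC N p t ↔ (p : ℤ) ^ 2 ∣ V N p t - t := by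
      constructor
      · rintro (h | ⟨j, hj, h1, h2⟩)
        · exact h.2
        · exact absurd ((dvd_pow_self _ (by omega)).trans h1) hd
      · intro h; exact Or.inl ⟨hd, h⟩
    rw [hLC]
    have hfp : ¬ (p : ℤ) ∣ f := by
      intro h
      apply hd
      rw [hf, sq, mul_assoc]
      exact dvd_mul_of_dvd_left h _
    have hD : ¬ (p : ℤ) ∣ discr K := by
      intro h
      apply hd
      rw [hf]
      exact dvd_mul_of_dvd_right h _
    have hfz : ((f : ℤ) : ZMod p) ≠ 0 := by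
      rw [Ne, ZMod.intCast_zmod_eq_zero_iff_dvd]
      exact hfp
    have hleg : legendreSym p (t ^ 2 - 4 * N) = jacobiSym (discr K) p := by
      rw [hf, legendreSym.mul, legendreSym.sq_one' p hfz, one_mul,
        jacobiSym.legendreSym.to_jacobiSym]
    constructor
    · rintro ⟨-, -, -, h1, h2⟩
      have heul : (p : ℤ) ∣ (t ^ 2 - 4 * N) ^ (p / 2) - legendreSym p (t ^ 2 - 4 * N) := by
        rw [← ZMod.intCast_zmod_eq_zero_iff_dvd]
        have := legendreSym.eq_pow p (t ^ 2 - 4 * N)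
        push_cast at this ⊢
        rw [this, sub_self]
      have hfr := frob p hp hp2 t N (α : 𝓞 K) hq _ heul
      have hj0 : legendreSym p (t ^ 2 - 4 * N) = 1 ∨ legendreSym p (t ^ 2 - 4 * N) = -1 := by
        apply legendreSym.eq_one_or_neg_one
        rw [Ne, ZMod.intCast_zmod_eq_zero_iff_dvd]
        exact hd
      have hfinal : ((p : 𝓞 K)) ^ 2 ∣ ((V N p t - t : ℤ) : 𝓞 K) := by
        rcases hj0 with h | h
        · apply V_of_split p hodd t N hN (α : 𝓞 K) hq
          have h3 := h1 (hleg ▸ h) α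
          have h4 : p = (p - 1) + 1 := by have := hp.pos; omega
          have h5 : (α : 𝓞 K) ^ p - α = (α : 𝓞 K) * ((α : 𝓞 K) ^ (p - 1) - 1) := by
            conv_lhs => rw [h4, pow_succ]
            ring
          rw [h5]
          exact dvd_mul_of_dvd_right h3 _
        · apply V_of_inert p hodd t N hN (α : 𝓞 K) hq
          exact inert_of_pow p hp hp2 t N hN (α : 𝓞 K) hq (hfr.2 h) (h2 (hleg ▸ h) α)
      have e : ((p : 𝓞 K)) ^ 2 = (((p : ℤ) ^ 2 : ℤ) : 𝓞 K) := by push_cast; ring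
      rw [e] at hfinal
      exact int_dvd_of_dvd K hK _ _ hfinal
    · intro h
      exact isWSS_of_V K hK α hα t N ht hN' hN p hp hp2 hd h

theorem tr_nm_unique (a : ℝ) (ha : ∀ q : ℚ, (q : ℝ) ≠ a) (t N t' N' : ℤ)
    (h : a ^ 2 - t * a + N = 0) (h' : a ^ 2 - t' * a + N' = 0) : t = t' ∧ N = N' := by
  have h1 : ((t : ℝ) - t') * a = N - N' := by linear_combination h' - h
  have ht : t = t' := by
    by_contra hne
    have hne' : (t : ℝ) - t' ≠ 0 := by
      intro h2; apply hne; exact_mod_cast sub_eq_zero.1 h2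
    apply ha (((N : ℚ) - N') / ((t : ℚ) - t'))
    push_cast
    rw [div_eq_iff hne']
    linarith
  refine ⟨ht, ?_⟩
  rw [ht, sub_self, zero_mul] at h1
  have : (N : ℝ) = N' := by linarith
  exact_mod_cast this

theorem isWSS_iff_LC (K : RealQuadraticField) (p : ℕ) (hp : p.Prime) (hp2 : p ≠ 2) :
    IsWSS K.1 p ↔ LC (nm K) p (tr K) := by
  obtain ⟨α, hα, hu⟩ := exists_fund K.1 K.2
  obtain ⟨k1, k2, k3, -⟩ := fu_spec K
  have hirr := not_rat_of_quad _ k1 _ _ k2 k3
  have h2 := congrArg (rv K.1) (quad_eq K.1 K.2 (α : 𝓞 K.1))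
  have h3 : (fu K) ^ 2 - (Algebra.trace ℤ (𝓞 K.1) (α : 𝓞 K.1) : ℤ) * fu K +
      (Algebra.norm ℤ (α : 𝓞 K.1) : ℤ) = 0 := by
    unfold fu
    rw [← hα]
    simpa using h2
  obtain ⟨e1, e2⟩ := tr_nm_unique _ hirr _ _ _ _ k3 h3
  refine isWSS_iff K.1 K.2 α hu _ _ e1.symm e2.symm k2 ?_ p hp hp2
  intro h0
  -- a square discriminant would make the unit rational
  have h4 : (2 * fu K - tr K) ^ 2 = 0 := by
    have : ((tr K : ℝ)) ^ 2 - 4 * nm K = 0 := by exact_mod_cast h0
    linear_combination 4 * k3 + this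
  have h5 : 2 * fu K - tr K = 0 := by
    exact pow_eq_zero_iff (two_ne_zero) |>.1 h4
  apply hirr ((tr K : ℚ) / 2)
  push_cast
  linarith

end Pool.Agent.Lib.MP_d470cf_nt.Loc
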