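import Pool.Agent.Lib.MP_d470cf_nt.Loc.Mean
import Pool.Agent.Lib.MP_d470cf_nt.Loc.Criterion
import Pool.Agent.Lib.MP_d470cf_nt.Classes

set_option autoImplicit false

open Finset Filter Topology Classical

namespace Pool.Agent.Lib.MP_d470cf_nt.Loc

open Pool.Agent.Lib.MP_d470cf_nt

/-- The number of square roots of `N = ± 1` modulo the odd prime `p`. -/
def sqrts (N : ℤ) (p : ℕ) : ℕ := if N = 1 ∨ p % 4 = 1 then 2 else 0

/-- There is a root of `x ^ 2 = 4 N` modulo every power of `p`. -/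
theorem exists_root (N : ℤ) (hN : N = 1 ∨ N = -1) (p : ℕ) (hp : p.Prime) (hp2 : p ≠ 2)
    (h : N = 1 ∨ p % 4 = 1) (v : ℕ) (hv : 1 ≤ v) :
    ∃ z : ℤ, (p : ℤ) ^ v ∣ z ^ 2 - 4 * N ∧ ¬ (p : ℤ) ∣ 2 * z := by
  have : Fact p.Prime := ⟨hp⟩
  have h2p := not_dvd_two p hp hp2
  have hpZ := Nat.prime_iff_prime_int.1 hp
  have hodd : p % 2 = 1 := by
    rcases hp.eq_two_or_odd with h | h
    · exact absurd h hp2
    · exact h
  obtain ⟨s, hs⟩ : ∃ s : ℤ, (p : ℤ) ∣ s ^ 2 - N := by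
    rcases hN with h1 | h1
    · exact ⟨1, by rw [h1]; simp⟩
    · have h4 : p % 4 = 1 := by
        rcases h with h | h
        · rw [h1] at h; exact absurd h (by decide)
        · exact h
      have h5 : IsSquare (-1 : ZMod p) := ZMod.exists_sq_eq_neg_one_iff.2 (by omega)
      obtain ⟨y, hy⟩ := h5
      refine ⟨(y.val : ℤ), ?_⟩
      rw [← ZMod.intCast_zmod_eq_zero_iff_dvd, h1]
      push_cast
      rw [ZMod.natCast_val, ZMod.cast_id', id]
      linear_combination -hy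
  obtain ⟨w, hw⟩ : ∃ w, v = w + 1 := ⟨v - 1, by omega⟩
  have h6 : (p : ℤ) ^ (w + 1) ∣ (s ^ 2) ^ p ^ w - N ^ p ^ w :=
    dvd_sub_pow_of_dvd_sub (R := ℤ) (p := p) hs w
  have hNp : N ^ p ^ w = N := by
    rcases hN with h1 | h1
    · rw [h1]; simp
    · rw [h1]; exact Odd.neg_one_pow (Odd.pow (Nat.odd_iff.2 hodd))
  rw [hNp] at h6
  have h7 : (p : ℤ) ^ v ∣ (2 * s ^ p ^ w) ^ 2 - 4 * N := by
    have e : (2 * s ^ p ^ w) ^ 2 - 4 * N = 4 * ((s ^ 2) ^ p ^ w - N) := by ring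
    rw [e, hw]
    exact dvd_mul_of_dvd_right h6 _
  refine ⟨2 * s ^ p ^ w, h7, ?_⟩
  intro h8
  have h9 : (p : ℤ) ∣ 2 * s ^ p ^ w := by
    rcases hpZ.dvd_or_dvd h8 with h | h
    · exact absurd h h2p
    · exact h
  have h10 : (p : ℤ) ∣ 4 * N := by
    have h11 := (dvd_pow_self (p : ℤ) (by omega : v ≠ 0)).trans h7
    have := dvd_sub (dvd_pow h9 two_ne_zero) h11
    simpa using this
  have h5 : (p : ℤ) ∣ 4 := by
    rcases hN with h | h <;> rw [h] at h10 <;> simpa using h10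
  have h6 : (p : ℤ) ∣ 2 * 2 := by norm_num; exact h5
  rcases hpZ.dvd_or_dvd h6 with h | h <;> exact h2p h

theorem mod_four_of_dvd (p : ℕ) (hp : p.Prime) (hp2 : p ≠ 2) (t : ℤ)
    (h : (p : ℤ) ∣ t ^ 2 - 4 * (-1)) : p % 4 = 1 := by
  have h1 := neg_one_even p hp hp2 t h
  have hodd : p % 2 = 1 := by
    rcases hp.eq_two_or_odd with h | h
    · exact absurd h hp2
    · exact h
  rw [Nat.even_iff] at h1
  omega

theorem root_card (N : ℤ) (hN : N = 1 ∨ N = -1) (p : ℕ) (hp : p.Prime) (hp2 : p ≠ 2)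
    (v : ℕ) (hv : 1 ≤ v) :
    ((range (p ^ v)).filter (fun t : ℕ => (p : ℤ) ^ v ∣ (t : ℤ) ^ 2 - 4 * N)).card =
      sqrts N p := by
  unfold sqrts
  have hpZ := Nat.prime_iff_prime_int.1 hp
  split_ifs with h
  · obtain ⟨z, hz, hz2⟩ := exists_root N hN p hp hp2 h v hv
    have hpv : (0 : ℤ) < (p : ℤ) ^ v := by have := hp.pos; positivity
    have hpv1 : (p : ℤ) ∣ (p : ℤ) ^ v := dvd_pow_self _ (by omega)
    have red : ∀ y : ℤ, ∃ a : ℕ, a < p ^ v ∧ (p : ℤ) ^ v ∣ (a : ℤ) - y := by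
      intro y
      have h0 : 0 ≤ y % ((p : ℤ) ^ v) := Int.emod_nonneg _ hpv.ne'
      have h1 : y % ((p : ℤ) ^ v) < (p : ℤ) ^ v := Int.emod_lt_of_pos _ hpv
      refine ⟨(y % ((p : ℤ) ^ v)).toNat, ?_, ?_⟩
      · have : (((y % ((p : ℤ) ^ v)).toNat : ℕ) : ℤ) < ((p ^ v : ℕ) : ℤ) := by
          rw [Int.toNat_of_nonneg h0]; exact_mod_cast h1
        exact_mod_cast this
      · rw [Int.toNat_of_nonneg h0]
        have := Int.dvd_self_sub_emod (x := y) (m := (p : ℤ) ^ v)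
        rw [← dvd_neg, neg_sub]; exact this
    obtain ⟨a, ha, ha'⟩ := red z
    obtain ⟨b, hb, hb'⟩ := red (-z)
    have huniq : ∀ t a : ℕ, t < p ^ v → a < p ^ v → (p : ℤ) ^ v ∣ (a : ℤ) - t → t = a := by
      intro t a ht ha hta
      have : t ≡ a [MOD p ^ v] := Nat.modEq_iff_dvd.2 (by exact_mod_cast hta)
      exact Nat.ModEq.eq_of_lt_of_lt this ht ha
    have hab : a ≠ b := by
      intro hab
      rw [← hab] at hb'
      apply hz2
      have h1 := dvd_sub hb' ha'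
      have e : (a : ℤ) - -z - ((a : ℤ) - z) = 2 * z := by ring
      rw [e] at h1
      exact hpv1.trans h1
    have hset : (range (p ^ v)).filter (fun t : ℕ => (p : ℤ) ^ v ∣ (t : ℤ) ^ 2 - 4 * N) =
        {a, b} := by
      ext t
      rw [mem_filter, mem_range, mem_insert, mem_singleton]
      constructor
      · rintro ⟨ht, htd⟩
        have h1 : (p : ℤ) ^ v ∣ ((t : ℤ) - z) * (t + z) := by
          have := dvd_sub htd hz
          have e : (t : ℤ) ^ 2 - 4 * N - (z ^ 2 - 4 * N) = ((t : ℤ) - z) * (t + z) := by ring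
          rwa [e] at this
        by_cases h2 : (p : ℤ) ∣ (t : ℤ) - z
        · have h3 : ¬ (p : ℤ) ∣ (t : ℤ) + z := by
            intro h3
            apply hz2
            have := dvd_sub h3 h2
            have e : (t : ℤ) + z - (t - z) = 2 * z := by ring
            rwa [e] at this
          have hcop : IsCoprime ((p : ℤ) ^ v) ((t : ℤ) + z) :=
            (hpZ.coprime_iff_not_dvd.2 h3).pow_left
          have h4 := hcop.dvd_of_dvd_mul_right h1
          left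
          apply huniq t a ht ha
          have := dvd_sub ha' h4
          have e : (a : ℤ) - z - (t - z) = a - t := by ring
          rwa [e] at this
        · have hcop : IsCoprime ((p : ℤ) ^ v) ((t : ℤ) - z) :=
            (hpZ.coprime_iff_not_dvd.2 h2).pow_left
          have h4 := hcop.dvd_of_dvd_mul_left h1
          right
          apply huniq t b ht hb
          have := dvd_sub hb' h4
          have e : (b : ℤ) - -z - (t + z) = b - t := by ring
          rwa [e] at this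
      · have hroot : ∀ y : ℤ, ∀ c : ℕ, y ^ 2 = z ^ 2 → (p : ℤ) ^ v ∣ (c : ℤ) - y →
            (p : ℤ) ^ v ∣ (c : ℤ) ^ 2 - 4 * N := by
          intro y c hy hc
          have e : (c : ℤ) ^ 2 - 4 * N = ((c : ℤ) - y) * (c + y) + (z ^ 2 - 4 * N) := by
            rw [← hy]; ring
          rw [e]
          exact dvd_add (dvd_mul_of_dvd_left hc _) hz
        rintro (rfl | rfl)
        · exact ⟨ha, hroot z _ rfl ha'⟩
        · exact ⟨hb, hroot (-z) _ (by ring) hb'⟩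
    rw [hset, card_pair hab]
  · rw [card_eq_zero, filter_eq_empty_iff]
    intro t _ ht
    apply h
    have h1 : (p : ℤ) ∣ (t : ℤ) ^ 2 - 4 * N := (dvd_pow_self _ (by omega)).trans ht
    rcases hN with h2 | h2
    · exact Or.inl h2
    · right
      rw [h2] at h1
      exact mod_four_of_dvd p hp hp2 t h1

/-- indicator -/
noncomputable def ind (P : Prop) : ℝ := if P then 1 else 0

theorem ind_nonneg (P : Prop) : 0 ≤ ind P := by unfold ind; split_ifs <;> norm_num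
theorem ind_le_one (P : Prop) : ind P ≤ 1 := by unfold ind; split_ifs <;> norm_num
theorem ind_mono {P Q : Prop} (h : P → Q) : ind P ≤ ind Q := by
  unfold ind
  split_ifs with h1 h2
  · exact le_refl _
  · exact absurd (h h1) h2
  · norm_num
  · exact le_refl _

theorem MV_pow (N : ℤ) (hN : N = 1 ∨ N = -1) (p : ℕ) (hp : p.Prime) (hp2 : p ≠ 2)
    (v : ℕ) (hv : 1 ≤ v) :
    MV (fun t : ℕ => ind ((p : ℤ) ^ v ∣ (t : ℤ) ^ 2 - 4 * N)) (sqrts N p / (p : ℝ) ^ v) := by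
  have hper : Function.Periodic (fun t : ℕ => ind ((p : ℤ) ^ v ∣ (t : ℤ) ^ 2 - 4 * N)) (p ^ v) := by
    intro t
    have : ((p : ℤ) ^ v ∣ ((t + p ^ v : ℕ) : ℤ) ^ 2 - 4 * N) =
        ((p : ℤ) ^ v ∣ (t : ℤ) ^ 2 - 4 * N) := by
      apply propext
      have e : ((t + p ^ v : ℕ) : ℤ) ^ 2 - 4 * N =
        ((t : ℤ) ^ 2 - 4 * N) + (p : ℤ) ^ v * (2 * t + (p : ℤ) ^ v) := by push_cast; ring
      rw [e]
      exact (dvd_add_left (Dvd.intro _ rfl))
    simp only [this]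
  have h1 := MV_periodic _ (p ^ v) (pow_pos hp.pos v) hper (fun _ => ind_nonneg _)
    (fun _ => ind_le_one _)
  have h2 : ∑ t ∈ range (p ^ v), ind ((p : ℤ) ^ v ∣ (t : ℤ) ^ 2 - 4 * N) = sqrts N p := by
    rw [← root_card N hN p hp hp2 v hv, card_filter]
    push_cast
    apply sum_congr rfl
    intro x _
    unfold ind
    split_ifs <;> rfl
  rw [h2] at h1
  push_cast at h1
  exact h1

theorem nu_eq (N : ℤ) (hN : N = 1 ∨ N = -1) (p : ℕ) (hp : p.Prime) (hp2 : p ≠ 2) :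
    (nu N p : ℝ) = p - sqrts N p := by
  have h1 := Finset.card_filter_add_card_filter_not (s := range p)
    (fun r : ℕ => (p : ℤ) ∣ (r : ℤ) ^ 2 - 4 * N)
  rw [Finset.card_range] at h1
  have h2 := root_card N hN p hp hp2 1 (le_refl 1)
  rw [pow_one, pow_one] at h2
  rw [h2] at h1
  have h3 : sqrts N p + nu N p = p := h1
  have h4 : (sqrts N p : ℝ) + nu N p = p := by exact_mod_cast h3
  linarith

theorem MV_ACond (N : ℤ) (hN : N = 1 ∨ N = -1) (p : ℕ) (hp : p.Prime) (hp2 : p ≠ 2) :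
    MV (fun t : ℕ => ind (ACond N p t)) ((p - sqrts N p) / (p : ℝ) ^ 2) := by
  have hper : Function.Periodic (fun t : ℕ => ind (ACond N p t)) (p ^ 2) := by
    intro t
    have := ACond_periodic N p hp t
    simp only [this]
  have h1 := MV_periodic _ (p ^ 2) (pow_pos hp.pos 2) hper (fun _ => ind_nonneg _)
    (fun _ => ind_le_one _)
  have h2 : ∑ t ∈ range (p ^ 2), ind (ACond N p t) = p - sqrts N p := by
    rw [← nu_eq N hN p hp hp2, ← ACond_count N p hp, Nat.count_eq_card_filter_range, card_filter]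
    push_cast
    rfl
  rw [h2] at h1
  push_cast at h1
  exact h1

/-- lower approximation of the local condition -/
def GC (N : ℤ) (p J : ℕ) (t : ℕ) : Prop :=
  ACond N p t ∨ ∃ j : ℕ, 2 ≤ j ∧ j ≤ J ∧ (p : ℤ) ^ (2 * j) ∣ (t : ℤ) ^ 2 - 4 * N ∧
    ¬ (p : ℤ) ^ (2 * j + 1) ∣ (t : ℤ) ^ 2 - 4 * N

/-- The local density. -/
noncomputable def dens (N : ℤ) (p : ℕ) : ℝ :=
  (p - sqrts N p) / (p : ℝ) ^ 2 + sqrts N p / ((p : ℝ) ^ 3 * (p + 1))

theorem GC_succ (N : ℤ) (p : ℕ) (J : ℕ) (hJ : 1 ≤ J) (t : ℕ) :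
    ind (GC N p (J + 1) t) = ind (GC N p J t) +
      (ind ((p : ℤ) ^ (2 * J + 2) ∣ (t : ℤ) ^ 2 - 4 * N) -
        ind ((p : ℤ) ^ (2 * J + 3) ∣ (t : ℤ) ^ 2 - 4 * N)) := by
  obtain ⟨u, hu⟩ : ∃ u : ℤ, u = (t : ℤ) ^ 2 - 4 * N := ⟨_, rfl⟩
  rw [← hu]
  by_cases h1 : (p : ℤ) ^ (2 * J + 2) ∣ u
  · -- not in `GC J`
    have hG : ¬ GC N p J t := by
      rintro (h | ⟨j, j1, j2, j3, j4⟩)
      · apply h.1
        rw [← hu]
        exact (dvd_pow_self _ (by omega)).trans h1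
      · apply j4
        rw [← hu]
        exact (pow_dvd_pow _ (by omega)).trans h1
    by_cases h2 : (p : ℤ) ^ (2 * J + 3) ∣ u
    · have hG' : ¬ GC N p (J + 1) t := by
        rintro (h | ⟨j, j1, j2, j3, j4⟩)
        · exact hG (Or.inl h)
        · apply j4
          rw [← hu]
          exact (pow_dvd_pow _ (by omega)).trans h2
      simp only [ind, if_neg hG, if_neg hG', if_pos h1, if_pos h2]
      norm_num
    · have hG' : GC N p (J + 1) t := by
        right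
        refine ⟨J + 1, by omega, le_refl _, ?_, ?_⟩
        · rw [← hu]; exact h1
        · rw [← hu]; exact h2
      simp only [ind, if_neg hG, if_pos hG', if_pos h1, if_neg h2]
      norm_num
  · have h2 : ¬ (p : ℤ) ^ (2 * J + 3) ∣ u := fun h => h1 ((pow_dvd_pow _ (by omega)).trans h)
    have hG : GC N p (J + 1) t ↔ GC N p J t := by
      constructor
      · rintro (h | ⟨j, j1, j2, j3, j4⟩)
        · exact Or.inl h
        · right
          refine ⟨j, j1, ?_, j3, j4⟩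
          by_contra hcon
          have : j = J + 1 := by omega
          rw [this, ← hu] at j3
          exact h1 j3
      · rintro (h | ⟨j, j1, j2, j3, j4⟩)
        · exact Or.inl h
        · exact Or.inr ⟨j, j1, by omega, j3, j4⟩
    rw [propext hG]
    simp only [ind, if_neg h1, if_neg h2]
    norm_num

theorem MV_GC (N : ℤ) (hN : N = 1 ∨ N = -1) (p : ℕ) (hp : p.Prime) (hp2 : p ≠ 2) (J : ℕ) :
    MV (fun t : ℕ => ind (GC N p (J + 1) t))
      (dens N p - sqrts N p / ((p : ℝ) ^ (2 * (J + 1) + 1) * (p + 1))) := by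
  have hp0 : (p : ℝ) ≠ 0 := by exact_mod_cast hp.ne_zero
  have hp1 : (p : ℝ) + 1 ≠ 0 := by positivity
  induction J with
  | zero =>
    have h1 := MV_ACond N hN p hp hp2
    have e : dens N p - sqrts N p / ((p : ℝ) ^ (2 * (0 + 1) + 1) * (p + 1)) =
        (p - sqrts N p) / (p : ℝ) ^ 2 := by
      unfold dens
      norm_num
    rw [e]
    refine h1.congr (fun t => ?_)
    congr 1
    apply propext
    constructor
    · intro h; exact Or.inl h
    · rintro (h | ⟨j, j1, j2, -⟩)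
      · exact h
      · omega
  | succ J ih =>
    have h1 := ih.add ((MV_pow N hN p hp hp2 (2 * (J + 1) + 2) (by omega)).sub
      (MV_pow N hN p hp hp2 (2 * (J + 1) + 3) (by omega)))
    have e : dens N p - sqrts N p / ((p : ℝ) ^ (2 * (J + 1) + 1) * (p + 1)) +
        (sqrts N p / (p : ℝ) ^ (2 * (J + 1) + 2) - sqrts N p / (p : ℝ) ^ (2 * (J + 1) + 3)) =
        dens N p - sqrts N p / ((p : ℝ) ^ (2 * (J + 1 + 1) + 1) * (p + 1)) := by
      have e1 : (p : ℝ) ^ (2 * (J + 1) + 2) = (p : ℝ) ^ (2 * (J + 1) + 1) * p := by ring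
      have e2 : (p : ℝ) ^ (2 * (J + 1) + 3) = (p : ℝ) ^ (2 * (J + 1) + 1) * p ^ 2 := by ring
      have e3 : (p : ℝ) ^ (2 * (J + 1 + 1) + 1) = (p : ℝ) ^ (2 * (J + 1) + 1) * p ^ 2 := by ring
      rw [e1, e2, e3]
      have hq : (p : ℝ) ^ (2 * (J + 1) + 1) ≠ 0 := pow_ne_zero _ hp0
      obtain ⟨Q, hQ⟩ : ∃ Q : ℝ, Q = (p : ℝ) ^ (2 * (J + 1) + 1) := ⟨_, rfl⟩
      rw [← hQ] at hq ⊢
      field_simp
      ring
    rw [e] at h1
    refine h1.congr (fun t => ?_)
    exact (GC_succ N p (J + 1) (by omega) t).symm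

theorem periodic_dvd (N : ℤ) (p v M : ℕ) (hM : v ≤ M) (t : ℕ) :
    ((p : ℤ) ^ v ∣ ((t + p ^ M : ℕ) : ℤ) ^ 2 - 4 * N) ↔ ((p : ℤ) ^ v ∣ (t : ℤ) ^ 2 - 4 * N) := by
  have e : ((t + p ^ M : ℕ) : ℤ) ^ 2 - 4 * N =
    ((t : ℤ) ^ 2 - 4 * N) + (p : ℤ) ^ M * (2 * t + (p : ℤ) ^ M) := by push_cast; ring
  rw [e]
  exact dvd_add_left ((pow_dvd_pow _ hM).trans (Dvd.intro _ rfl))

theorem GC_periodic (N : ℤ) (p : ℕ) (hp : p.Prime) (J M : ℕ) (hM : 2 * J + 2 ≤ M) (t : ℕ) :
    GC N p J (t + p ^ M) ↔ GC N p J t := by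
  have hA : ACond N p (t + p ^ M) ↔ ACond N p t := by
    apply ACond_congr N p hp
    push_cast
    have e : (t : ℤ) + (p : ℤ) ^ M - t = (p : ℤ) ^ M := by ring
    rw [e]
    exact pow_dvd_pow _ (by omega)
  unfold GC
  rw [hA]
  apply or_congr_right
  apply exists_congr
  intro j
  constructor
  · rintro ⟨h1, h2, h3, h4⟩
    refine ⟨h1, h2, (periodic_dvd N p _ M (by omega) t).1 h3, fun h => h4 ?_⟩
    exact (periodic_dvd N p _ M (by omega) t).2 h
  · rintro ⟨h1, h2, h3, h4⟩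
    refine ⟨h1, h2, (periodic_dvd N p _ M (by omega) t).2 h3, fun h => h4 ?_⟩
    exact (periodic_dvd N p _ M (by omega) t).1 h

theorem sqrts_le (N : ℤ) (p : ℕ) : (sqrts N p : ℝ) ≤ 2 := by
  unfold sqrts
  split_ifs <;> norm_num

theorem dens_bounds (N : ℤ) (p : ℕ) (hp : p.Prime) (hp2 : p ≠ 2) :
    0 ≤ dens N p ∧ dens N p ≤ 1 := by
  have hp3 : (3 : ℝ) ≤ p := by
    have := hp.two_le
    have : 3 ≤ p := by omega
    exact_mod_cast this
  have hs := sqrts_le N p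
  have hs0 : (0 : ℝ) ≤ sqrts N p := Nat.cast_nonneg _
  unfold dens
  constructor
  · have : (0 : ℝ) ≤ p - sqrts N p := by linarith
    positivity
  · have h1 : (p - sqrts N p) / (p : ℝ) ^ 2 ≤ 1 / 3 := by
      rw [div_le_div_iff₀ (by positivity) (by norm_num)]
      nlinarith
    have h2 : (sqrts N p : ℝ) / ((p : ℝ) ^ 3 * (p + 1)) ≤ 2 / 3 := by
      rw [div_le_div_iff₀ (by positivity) (by norm_num)]
      have : (3 : ℝ) ≤ (p : ℝ) ^ 3 * (p + 1) := by
        have h3 : (1 : ℝ) ≤ (p : ℝ) ^ 3 := one_le_pow₀ (by linarith)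
        nlinarith
      nlinarith
    linarith

theorem LD_local (N : ℤ) (hN : N = 1 ∨ N = -1) (p : ℕ) (hp : p.Prime) (hp2 : p ≠ 2) :
    LD {p} (fun t : ℕ => ind (LC N p t)) (dens N p) := by
  refine ⟨dens_bounds N p hp hp2, fun ε hε => ?_⟩
  have hp3 : (3 : ℝ) ≤ p := by
    have := hp.two_le
    have : 3 ≤ p := by omega
    exact_mod_cast this
  have hp0 : (0 : ℝ) < p := by linarith
  obtain ⟨J, hJ⟩ : ∃ J : ℕ, (2 : ℝ) * (1 / 2) ^ J < ε := by
    obtain ⟨J, hJ⟩ := exists_pow_lt_of_lt_one (show (0 : ℝ) < ε / 2 by positivity)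
      (show (1 / 2 : ℝ) < 1 by norm_num)
    exact ⟨J, by linarith⟩
  obtain ⟨M, hM⟩ : ∃ M, M = 2 * (J + 1) + 2 := ⟨_, rfl⟩
  -- the tail
  have hG := MV_GC N hN p hp hp2 J
  have hB := MV_pow N hN p hp hp2 M (by omega)
  have hs := sqrts_le N p
  have hs0 : (0 : ℝ) ≤ sqrts N p := Nat.cast_nonneg _
  have hpow : (1 : ℝ) / (p : ℝ) ^ J ≤ (1 / 2) ^ J := by
    rw [one_div_pow]
    apply one_div_le_one_div_of_le (by positivity)
    exact pow_le_pow_left₀ (by norm_num) (by linarith) J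
  have t1 : (sqrts N p : ℝ) / ((p : ℝ) ^ (2 * (J + 1) + 1) * (p + 1)) ≤ ε := by
    have h1 : (p : ℝ) ^ J ≤ (p : ℝ) ^ (2 * (J + 1) + 1) * (p + 1) := by
      have h2 : (p : ℝ) ^ J ≤ (p : ℝ) ^ (2 * (J + 1) + 1) :=
        pow_le_pow_right₀ (by linarith) (by omega)
      have h3 : (0 : ℝ) ≤ (p : ℝ) ^ (2 * (J + 1) + 1) := by positivity
      nlinarith
    have h4 : (sqrts N p : ℝ) / ((p : ℝ) ^ (2 * (J + 1) + 1) * (p + 1)) ≤ 2 / (p : ℝ) ^ J :=
      div_le_div₀ (by norm_num) hs (by positivity) h1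
    have h5 : (2 : ℝ) / (p : ℝ) ^ J = 2 * (1 / (p : ℝ) ^ J) := by ring
    rw [h5] at h4
    linarith
  have t2 : (sqrts N p : ℝ) / (p : ℝ) ^ M ≤ ε := by
    have h1 : (p : ℝ) ^ J ≤ (p : ℝ) ^ M := pow_le_pow_right₀ (by linarith) (by omega)
    have h4 : (sqrts N p : ℝ) / (p : ℝ) ^ M ≤ 2 / (p : ℝ) ^ J :=
      div_le_div₀ (by norm_num) hs (by positivity) h1
    have h5 : (2 : ℝ) / (p : ℝ) ^ J = 2 * (1 / (p : ℝ) ^ J) := by ring
    rw [h5] at h4
    linarith
  have t1' : 0 ≤ (sqrts N p : ℝ) / ((p : ℝ) ^ (2 * (J + 1) + 1) * (p + 1)) := by positivity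
  have t2' : 0 ≤ (sqrts N p : ℝ) / (p : ℝ) ^ M := by positivity
  refine ⟨p ^ M, pow_pos hp.pos M, ?_, fun t => ind (GC N p (J + 1) t),
    fun t => ind (GC N p (J + 1) t ∨ (p : ℤ) ^ M ∣ (t : ℤ) ^ 2 - 4 * N), _, _, ?_, ?_, ?_,
    hG, (hG.add hB).congr ?_, ?_, ?_⟩
  · intro q hq hqd
    rw [mem_singleton]
    exact (Nat.prime_dvd_prime_iff_eq hq hp).1 (hq.dvd_of_dvd_pow hqd)
  · intro t
    have := propext (GC_periodic N p hp (J + 1) M (by omega) t)
    simp only [this]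
  · intro t
    have h1 := propext (GC_periodic N p hp (J + 1) M (by omega) t)
    have h2 := propext (periodic_dvd N p M M (le_refl _) t)
    simp only [h1, h2]
  · intro t
    refine ⟨ind_nonneg _, ind_mono ?_, ind_mono ?_, ind_le_one _⟩
    · rintro (h | ⟨j, j1, -, j3, j4⟩)
      · exact Or.inl h
      · exact Or.inr ⟨j, j1, j3, j4⟩
    · rintro (h | ⟨j, j1, j3, j4⟩)
      · exact Or.inl (Or.inl h)
      · by_cases hj : j ≤ J + 1
        · exact Or.inl (Or.inr ⟨j, j1, hj, j3, j4⟩)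
        · right
          exact (pow_dvd_pow _ (by omega)).trans j3
  · intro t
    by_cases h1 : (p : ℤ) ^ M ∣ (t : ℤ) ^ 2 - 4 * N
    · have hG' : ¬ GC N p (J + 1) t := by
        rintro (h | ⟨j, j1, j2, j3, j4⟩)
        · apply h.1
          exact (dvd_pow_self _ (by omega)).trans h1
        · apply j4
          exact (pow_dvd_pow _ (by omega)).trans h1
      simp only [ind, if_neg hG', if_pos h1, if_pos (Or.inr h1 : GC N p (J + 1) t ∨ _)]
      norm_num
    · by_cases hG' : GC N p (J + 1) t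
      · simp only [ind, if_pos hG', if_neg h1, if_pos (Or.inl hG' : GC N p (J + 1) t ∨ _)]
        norm_num
      · have : ¬ (GC N p (J + 1) t ∨ (p : ℤ) ^ M ∣ (t : ℤ) ^ 2 - 4 * N) := by
          rintro (h | h)
          · exact hG' h
          · exact h1 h
        simp only [ind, if_neg hG', if_neg h1, if_neg this]
        norm_num
  · rw [abs_le]
    constructor <;> linarith
  · rw [abs_le]
    constructor <;> linarith

end Pool.Agent.Lib.MP_d470cf_nt.Loc
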