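import Pool.Agent.Lib.MP_d470cf_nt.Loc.Local
import Pool.Agent.Lib.MP_d470cf_nt.Final

set_option autoImplicit false

open NumberField Module NumberField.Units IntermediateField Finset Classical Filter Topology

namespace Pool.Agent.Lib.MP_d470cf_nt.Loc

open Pool.Agent.Lib.MP_d470cf_nt

/-- the unit of norm `N` and trace `t` -/
noncomputable def wt (N : ℤ) (t : ℕ) : ℝ := (t + Real.sqrt ((t : ℝ) ^ 2 - 4 * N)) / 2

/-- admissible pairs -/
def Ok (N : ℤ) (t : ℕ) : Prop := (N = 1 ∧ 3 ≤ t) ∨ (N = -1 ∧ 1 ≤ t)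

theorem wt_spec (N : ℤ) (t : ℕ) (h : Ok N t) :
    1 < wt N t ∧ wt N t < t + 1 ∧ (wt N t) ^ 2 - ((t : ℤ) : ℝ) * wt N t + (N : ℝ) = 0 := by
  unfold wt
  rw [Int.cast_natCast]
  rcases h with ⟨hN, ht⟩ | ⟨hN, ht⟩
  · have ht' : (3 : ℝ) ≤ t := by exact_mod_cast ht
    rw [hN, Int.cast_one]
    have h0 : 0 ≤ (t : ℝ) ^ 2 - 4 * 1 := by nlinarith
    have hs := Real.sq_sqrt h0
    have hs0 := Real.sqrt_nonneg ((t : ℝ) ^ 2 - 4 * 1)
    have hs1 : Real.sqrt ((t : ℝ) ^ 2 - 4 * 1) < t := by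
      rw [Real.sqrt_lt' (by linarith)]; linarith
    obtain ⟨r, hr⟩ : ∃ r : ℝ, r = Real.sqrt ((t : ℝ) ^ 2 - 4 * 1) := ⟨_, rfl⟩
    rw [← hr] at hs hs0 hs1 ⊢
    refine ⟨by linarith, by linarith, ?_⟩
    linear_combination (1 / 4 : ℝ) * hs
  · have ht' : (1 : ℝ) ≤ t := by exact_mod_cast ht
    rw [hN, Int.cast_neg, Int.cast_one]
    have h0 : 0 ≤ (t : ℝ) ^ 2 - 4 * (-1) := by nlinarith
    have hs := Real.sq_sqrt h0
    have hs1 : Real.sqrt ((t : ℝ) ^ 2 - 4 * (-1)) < t + 2 := by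
      rw [Real.sqrt_lt' (by linarith)]; nlinarith
    have hs2 : 1 < Real.sqrt ((t : ℝ) ^ 2 - 4 * (-1)) := by
      rw [Real.lt_sqrt (by norm_num)]; nlinarith
    obtain ⟨r, hr⟩ : ∃ r : ℝ, r = Real.sqrt ((t : ℝ) ^ 2 - 4 * (-1)) := ⟨_, rfl⟩
    rw [← hr] at hs hs1 hs2 ⊢
    refine ⟨by linarith, by linarith, ?_⟩
    linear_combination (1 / 4 : ℝ) * hs

theorem Ok.sign {N : ℤ} {t : ℕ} (h : Ok N t) : N = 1 ∨ N = -1 := by
  rcases h with h | h
  · exact Or.inl h.1
  · exact Or.inr h.1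

theorem quad_integral (a : ℝ) (t N : ℤ) (h : a ^ 2 - t * a + N = 0) : IsIntegral ℤ a := by
  refine ⟨Polynomial.X ^ 2 - Polynomial.C t * Polynomial.X + Polynomial.C N, ?_, ?_⟩
  · monicity!
  · simp only [Polynomial.eval₂_add, Polynomial.eval₂_sub, Polynomial.eval₂_mul,
        Polynomial.eval₂_pow, Polynomial.eval₂_X, Polynomial.eval₂_C]
    simpa using h

theorem quad_inv (a : ℝ) (t N : ℤ) (hN : N = 1 ∨ N = -1) (h : a ^ 2 - t * a + N = 0) :
    a⁻¹ = N * (t - a) := by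
  have hN2 : (N : ℝ) ^ 2 = 1 := by
    rcases hN with h | h <;> rw [h] <;> norm_num
  have : a * (N * (t - a)) = 1 := by linear_combination (-(N : ℝ)) * h + hN2
  exact inv_eq_of_mul_eq_one_right this

theorem finrank_adjoin_quad (a : ℝ) (ha : 1 < a) (t N : ℤ) (hN : N = 1 ∨ N = -1)
    (h : a ^ 2 - t * a + N = 0) : finrank ℚ ℚ⟮a⟯ = 2 := by
  have hirr := not_rat_of_quad a ha t N hN h
  have hint : IsIntegral ℚ a := (quad_integral a t N h).tower_top
  rw [IntermediateField.adjoin.finrank hint]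
  have hle : (minpoly ℚ a).natDegree ≤ 2 := by
    have hroot : Polynomial.aeval a (Polynomial.X ^ 2 - Polynomial.C (t : ℚ) * Polynomial.X +
        Polynomial.C (N : ℚ)) = 0 := by
      simp only [map_add, map_sub, map_mul, map_pow, Polynomial.aeval_X, Polynomial.aeval_C]
      simpa using h
    have hmon : (Polynomial.X ^ 2 - Polynomial.C (t : ℚ) * Polynomial.X +
        Polynomial.C (N : ℚ)).Monic := by
      monicity!
    have hdeg : (Polynomial.X ^ 2 - Polynomial.C (t : ℚ) * Polynomial.X +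
        Polynomial.C (N : ℚ)).natDegree = 2 := by
      compute_degree!
    have := Polynomial.natDegree_le_of_dvd (minpoly.dvd ℚ a hroot) hmon.ne_zero
    omega
  have hpos := minpoly.natDegree_pos hint
  have hne : (minpoly ℚ a).natDegree ≠ 1 := by
    intro h
    have := minpoly.natDegree_eq_one_iff.1 h
    obtain ⟨q, hq⟩ := this
    exact hirr q (by simpa using hq)
  omega

theorem exists_pow (a : ℝ) (ha : 1 < a) (t N : ℤ) (hN : N = 1 ∨ N = -1)
    (h : a ^ 2 - t * a + N = 0) : ∃ (K : RealQuadraticField) (n : ℕ), 1 ≤ n ∧ a = fu K ^ n := by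
  obtain ⟨K, hK⟩ : ∃ K : RealQuadraticField, K.1 = ℚ⟮a⟯ :=
    ⟨⟨ℚ⟮a⟯, finrank_adjoin_quad a ha t N hN h⟩, rfl⟩
  obtain ⟨g1, g2, g3, g4, g5, -⟩ := fu_spec K
  have hmem : a ∈ K.1 := by rw [hK]; exact mem_adjoin_simple_self ℚ a
  have hi := quad_integral a t N h
  have hi' : IsIntegral ℤ a⁻¹ := by
    rw [quad_inv a t N hN h]
    have e1 : IsIntegral ℤ ((N : ℤ) : ℝ) := isIntegral_algebraMap (x := N)
    have e2 : IsIntegral ℤ ((t : ℤ) : ℝ) := isIntegral_algebraMap (x := t)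
    exact e1.mul (e2.sub hi)
  obtain ⟨n, hn⟩ := g5 a hmem (by linarith) hi hi'
  have hpos : 0 < fu K ^ n := zpow_pos (by linarith) n
  have hn' : a = fu K ^ n := by
    rcases hn with hn | hn
    · exact hn
    · exfalso; linarith
  have hnpos : 0 < n := by
    by_contra hcon
    push Not at hcon
    have : fu K ^ n ≤ 1 := zpow_le_one_of_nonpos₀ g1.le hcon
    linarith
  obtain ⟨m, hm⟩ := Int.eq_ofNat_of_zero_le hnpos.le
  refine ⟨K, m, by omega, ?_⟩
  rw [hn', hm, zpow_natCast]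

/-- the traces of the fundamental units of norm `N` of the fields with regulator at most `Y` -/
def SN (N : ℤ) (Y : ℝ) : Set ℕ := {t | ∃ K : RealQuadraticField, K ∈ FY Y ∧ nm K = N ∧
  (tr K).toNat = t}

theorem mem_SN_or (N : ℤ) (Y : ℝ) (t : ℕ) (h : Ok N t) (hY : wt N t ≤ Real.exp Y) :
    t ∈ SN N Y ∨ ∃ (K : RealQuadraticField) (n : ℕ), 2 ≤ n ∧ wt N t = fu K ^ n := by
  obtain ⟨w1, w2, w3⟩ := wt_spec N t h
  obtain ⟨K, n, hn, hK⟩ := exists_pow (wt N t) w1 t N h.sign w3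
  by_cases hn2 : 2 ≤ n
  · exact Or.inr ⟨K, n, hn2, hK⟩
  · left
    have : n = 1 := by omega
    rw [this, pow_one] at hK
    obtain ⟨k1, k2, k3, -⟩ := fu_spec K
    have hirr := not_rat_of_quad _ k1 _ _ k2 k3
    rw [hK] at w3
    obtain ⟨e1, e2⟩ := tr_nm_unique _ hirr _ _ _ _ k3 w3
    refine ⟨K, ?_, e2, ?_⟩
    · show regulator K.1 ≤ Y
      rw [fu_le_iff, ← hK]
      exact hY
    · rw [e1]; simp

/-- exceptional traces -/
noncomputable def Exc (N : ℤ) (Y : ℝ) (T : ℕ) : Finset ℕ :=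
  (range T).filter (fun t => Ok N t ∧ wt N t ≤ Real.exp Y ∧
    ∃ (K : RealQuadraticField) (n : ℕ), 2 ≤ n ∧ wt N t = fu K ^ n)

theorem exc_bound (N : ℤ) (Y : ℝ) (hY : 0 ≤ Y) (T : ℕ) :
    ((Exc N Y T).card : ℝ) ≤ (Real.exp (Y / 2) + 2) * 2 * (3 * Y + 1) := by
  set E := Exc N Y T with hE
  obtain ⟨K0, -⟩ : ∃ (K : RealQuadraticField) (n : ℕ), 1 ≤ n ∧ wt (-1) 1 = fu K ^ n :=
    exists_pow (wt (-1) 1) (wt_spec (-1) 1 (Or.inr ⟨rfl, le_refl 1⟩)).1 1 (-1) (Or.inr rfl)
      (wt_spec (-1) 1 (Or.inr ⟨rfl, le_refl 1⟩)).2.2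
  have hex : ∀ t : ℕ, ∃ Kn : RealQuadraticField × ℕ,
      t ∈ E → 2 ≤ Kn.2 ∧ wt N t = fu Kn.1 ^ Kn.2 := by
    intro t
    by_cases ht : t ∈ E
    · obtain ⟨-, -, K, n, h1, h2⟩ := (Finset.mem_filter.1 ht).2
      exact ⟨⟨K, n⟩, fun _ => ⟨h1, h2⟩⟩
    · exact ⟨⟨K0, 0⟩, fun h => absurd h ht⟩
  choose g hg using hex
  have h1 : E.card ≤ ((range (⌊Real.exp (Y / 2)⌋₊ + 2)) ×ˢ ({1, -1} : Finset ℤ) ×ˢ
      (range (⌊3 * Y⌋₊ + 1))).card := by
    apply Finset.card_le_card_of_injOn (fun t => ((tr (g t).1).toNat, nm (g t).1, (g t).2))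
    · intro t ht
      have ht' := Finset.mem_coe.1 ht
      obtain ⟨hn2, hut⟩ := hg t ht'
      obtain ⟨hok, hle, -⟩ := (Finset.mem_filter.1 ht').2
      obtain ⟨k1, k2, k3, -⟩ := fu_spec (g t).1
      have hpow : fu (g t).1 ^ (g t).2 ≤ Real.exp Y := by rw [← hut]; exact hle
      have hsq : fu (g t).1 ^ 2 ≤ Real.exp Y := (pow_le_pow_right₀ k1.le hn2).trans hpow
      have hsqrt : fu (g t).1 ≤ Real.exp (Y / 2) := by
        have e : Real.exp Y = Real.exp (Y / 2) ^ 2 := by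
          rw [← Real.exp_nat_mul]; congr 1; push_cast; ring
        rw [e] at hsq
        exact (pow_le_pow_iff_left₀ (by linarith) (Real.exp_pos _).le two_ne_zero).1 hsq
      have hb := tr_bounds _ k1 _ _ k2 k3
      rw [Finset.mem_coe, Finset.mem_product, Finset.mem_product, Finset.mem_range,
        Finset.mem_range]
      refine ⟨?_, by simpa using k2, ?_⟩
      · have h5 := Nat.lt_floor_add_one (Real.exp (Y / 2))
        have h6 : (tr (g t).1 : ℝ) < (⌊Real.exp (Y / 2)⌋₊ : ℝ) + 2 := by linarith [hb.2]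
        have h7 : tr (g t).1 < (⌊Real.exp (Y / 2)⌋₊ : ℤ) + 2 := by exact_mod_cast h6
        have := one_le_tr (g t).1
        show (tr (g t).1).toNat < _
        omega
      · show (g t).2 < _
        have h8 : 3 / 2 < fu (g t).1 := unit_lower _ k1 _ _ k2 k3
        have h9 : ((g t).2 : ℝ) * Real.log (3 / 2) ≤ Y := by
          rw [← Real.log_pow, ← Real.log_exp Y]
          apply Real.log_le_log (by positivity)
          exact (pow_le_pow_left₀ (by norm_num) h8.le _).trans hpow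
        have h10 : (1 : ℝ) / 3 ≤ Real.log (3 / 2) := by
          have := Real.one_sub_inv_le_log_of_pos (show (0 : ℝ) < 3 / 2 by norm_num)
          norm_num at this ⊢
          linarith
        have h11 : ((g t).2 : ℝ) ≤ 3 * Y := by
          have : ((g t).2 : ℝ) * (1 / 3) ≤ ((g t).2 : ℝ) * Real.log (3 / 2) :=
            mul_le_mul_of_nonneg_left h10 (by positivity)
          linarith
        have := Nat.le_floor h11
        omega
    · intro t ht t' ht' heq
      have ht1 := Finset.mem_coe.1 ht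
      have ht2 := Finset.mem_coe.1 ht'
      obtain ⟨hn2, hut⟩ := hg t ht1
      obtain ⟨hn2', hut'⟩ := hg t' ht2
      obtain ⟨hok, -⟩ := (Finset.mem_filter.1 ht1).2
      obtain ⟨hok', -⟩ := (Finset.mem_filter.1 ht2).2
      simp only [Prod.mk.injEq] at heq
      obtain ⟨e1, e2, e3⟩ := heq
      have hK : (g t).1 = (g t').1 := tr_nm_injective _ _ e1 e2
      rw [hK, e3, ← hut'] at hut
      obtain ⟨w1, -, w3⟩ := wt_spec N t hok
      obtain ⟨w1', -, w3'⟩ := wt_spec N t' hok'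
      rw [hut] at w1 w3
      have hirr := not_rat_of_quad _ w1 _ _ hok.sign w3
      obtain ⟨e4, -⟩ := tr_nm_unique _ hirr _ _ _ _ w3 w3'
      exact_mod_cast e4
  rw [Finset.card_product, Finset.card_product, Finset.card_range, Finset.card_range,
    Finset.card_pair (by decide), ← mul_assoc] at h1
  have h2 : (E.card : ℝ) ≤ ((⌊Real.exp (Y / 2)⌋₊ : ℝ) + 2) * 2 * ((⌊3 * Y⌋₊ : ℝ) + 1) := by
    exact_mod_cast h1
  refine h2.trans ?_
  have f1 := Nat.floor_le (Real.exp_pos (Y / 2)).le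
  have f2 := Nat.floor_le (show 0 ≤ 3 * Y by positivity)
  apply mul_le_mul _ _ (by positivity) (by positivity)
  · linarith
  · linarith

/-- the number of traces that are missed -/
theorem missed_bound (N : ℤ) (hN : N = 1 ∨ N = -1) (Y : ℝ) (hY : 0 ≤ Y) :
    (((range (⌊Real.exp Y⌋₊ + 2)).filter (fun t => t ∉ SN N Y)).card : ℝ) ≤
      (Real.exp (Y / 2) + 2) * 2 * (3 * Y + 1) + 5 := by
  set F := ⌊Real.exp Y⌋₊ with hF
  have hsub : (range (F + 2)).filter (fun t => t ∉ SN N Y) ⊆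
      Exc N Y (F + 2) ∪ ({0, 1, 2} ∪ {F, F + 1}) := by
    intro t ht
    rw [Finset.mem_filter, Finset.mem_range] at ht
    rw [Finset.mem_union]
    by_cases hok : Ok N t
    · by_cases hle : wt N t ≤ Real.exp Y
      · left
        unfold Exc
        rw [Finset.mem_filter, Finset.mem_range]
        rcases mem_SN_or N Y t hok hle with h | h
        · exact absurd h ht.2
        · exact ⟨ht.1, hok, hle, h⟩
      · right
        push Not at hle
        have h1 := (wt_spec N t hok).2.1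
        have h2 := Nat.floor_le (Real.exp_pos Y).le
        have h3 : (F : ℝ) < t + 1 := by rw [hF]; linarith
        have h4 : F < t + 1 := by exact_mod_cast h3
        rw [Finset.mem_union]
        right
        rw [Finset.mem_insert, Finset.mem_singleton]
        omega
    · right
      rw [Finset.mem_union]
      left
      have : t < 3 := by
        by_contra hcon
        push Not at hcon
        apply hok
        rcases hN with h | h
        · exact Or.inl ⟨h, hcon⟩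
        · exact Or.inr ⟨h, by omega⟩
      simp only [Finset.mem_insert, Finset.mem_singleton]
      omega
  have h1 := (Finset.card_le_card hsub).trans (Finset.card_union_le _ _)
  have h2 : (({0, 1, 2} ∪ {F, F + 1} : Finset ℕ)).card ≤ 5 :=
    (Finset.card_union_le _ _).trans (add_le_add Finset.card_le_three Finset.card_le_two)
  have h3 := exc_bound N Y hY (F + 2)
  have h4 : (((range (F + 2)).filter (fun t => t ∉ SN N Y)).card : ℝ) ≤
    ((Exc N Y (F + 2)).card : ℝ) + 5 := by exact_mod_cast h1.trans (Nat.add_le_add_left h2 _)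
  linarith

theorem missed_tendsto :
    Tendsto (fun Y : ℝ => ((Real.exp (Y / 2) + 2) * 2 * (3 * Y + 1) + 5) / Real.exp Y) atTop
      (𝓝 0) := by
  have h1 : Tendsto (fun x : ℝ => x ^ 1 * Real.exp (-x)) atTop (𝓝 0) :=
    Real.tendsto_pow_mul_exp_neg_atTop_nhds_zero 1
  have h0 : Tendsto (fun x : ℝ => Real.exp (-x)) atTop (𝓝 0) :=
    Real.tendsto_exp_neg_atTop_nhds_zero
  have hhalf : Tendsto (fun Y : ℝ => Y / 2) atTop atTop :=
    tendsto_id.atTop_div_const (by norm_num)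
  have a1 := h1.comp hhalf
  have a0 := h0.comp hhalf
  have b1 := h1
  have b0 := h0
  have c : Tendsto (fun Y : ℝ => 12 * ((Y / 2) ^ 1 * Real.exp (-(Y / 2))) +
      2 * Real.exp (-(Y / 2)) + (12 * (Y ^ 1 * Real.exp (-Y)) + 9 * Real.exp (-Y))) atTop
      (𝓝 (12 * 0 + 2 * 0 + (12 * 0 + 9 * 0))) :=
    ((a1.const_mul 12).add (a0.const_mul 2)).add ((b1.const_mul 12).add (b0.const_mul 9))
  have e0 : (12 * 0 + 2 * 0 + (12 * 0 + 9 * 0) : ℝ) = 0 := by norm_num
  rw [e0] at c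
  refine c.congr (fun Y => ?_)
  have hE : Real.exp Y = Real.exp (Y / 2) * Real.exp (Y / 2) := by
    rw [← Real.exp_add]; congr 1; ring
  have hE1 : Real.exp (-Y) = (Real.exp Y)⁻¹ := Real.exp_neg Y
  have hE2 : Real.exp (-(Y / 2)) = (Real.exp (Y / 2))⁻¹ := Real.exp_neg _
  rw [hE1, hE2, hE]
  have := Real.exp_pos (Y / 2)
  field_simp
  ring

/-- counting fields through the traces of their fundamental units -/
theorem ncard_eq (N : ℤ) (Y : ℝ) (P : ℕ → Prop) :
    ({K : RealQuadraticField | K ∈ FY Y ∧ nm K = N ∧ P (tr K).toNat}).ncard =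
      ((range (⌊Real.exp Y⌋₊ + 2)).filter (fun t => t ∈ SN N Y ∧ P t)).card := by
  rw [← Set.ncard_coe_finset]
  have hinj : Set.InjOn (fun K : RealQuadraticField => (tr K).toNat)
      {K : RealQuadraticField | K ∈ FY Y ∧ nm K = N ∧ P (tr K).toNat} := by
    intro K hK K' hK' h
    exact tr_nm_injective K K' h (hK.2.1.trans hK'.2.1.symm)
  rw [← hinj.ncard_image]
  congr 1
  ext t
  rw [Finset.mem_coe, Finset.mem_filter, Finset.mem_range]
  constructor
  · rintro ⟨K, ⟨h1, h2, h3⟩, rfl⟩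
    exact ⟨tr_lt K Y h1, ⟨K, h1, h2, rfl⟩, h3⟩
  · rintro ⟨-, ⟨K, h1, h2, rfl⟩, h3⟩
    exact ⟨K, ⟨h1, h2, h3⟩, rfl⟩

theorem count_tendsto (N : ℤ) (hN : N = 1 ∨ N = -1) (P : ℕ → Prop) (a : ℝ)
    (h : MV (fun t => ind (P t)) a) :
    Tendsto (fun Y : ℝ =>
      (({K : RealQuadraticField | K ∈ FY Y ∧ nm K = N ∧ P (tr K).toNat}).ncard : ℝ) /
        Real.exp Y) atTop (𝓝 a) := by
  -- the total count
  have hfl : Tendsto (fun Y : ℝ => ⌊Real.exp Y⌋₊ + 2) atTop atTop :=
    (tendsto_add_atTop_nat 2).comp (tendsto_nat_floor_atTop.comp Real.tendsto_exp_atTop)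
  have h1 : Tendsto (fun Y : ℝ => (∑ t ∈ range (⌊Real.exp Y⌋₊ + 2), ind (P t)) /
      ((⌊Real.exp Y⌋₊ + 2 : ℕ) : ℝ)) atTop (𝓝 a) := h.comp hfl
  have h2 : Tendsto (fun Y : ℝ => ((⌊Real.exp Y⌋₊ + 2 : ℕ) : ℝ) / Real.exp Y) atTop (𝓝 1) := by
    have e1 : Tendsto (fun x : ℝ => (⌊x⌋₊ : ℝ) / x) atTop (𝓝 1) := tendsto_nat_floor_div_atTop
    have e2 := e1.comp Real.tendsto_exp_atTop
    have e3 : Tendsto (fun Y : ℝ => 2 * Real.exp (-Y)) atTop (𝓝 (2 * 0)) :=
      Real.tendsto_exp_neg_atTop_nhds_zero.const_mul 2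
    have e4 := e2.add e3
    rw [mul_zero, add_zero] at e4
    refine e4.congr (fun Y => ?_)
    simp only [Function.comp]
    rw [Real.exp_neg]
    push_cast
    field_simp
  have h3 := h1.mul h2
  rw [mul_one] at h3
  have h4 : Tendsto (fun Y : ℝ => (∑ t ∈ range (⌊Real.exp Y⌋₊ + 2), ind (P t)) /
      Real.exp Y) atTop (𝓝 a) := by
    refine h3.congr (fun Y => ?_)
    have : ((⌊Real.exp Y⌋₊ + 2 : ℕ) : ℝ) ≠ 0 := by positivity
    have := (Real.exp_pos Y).ne'
    field_simp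
  -- comparison
  have h5 : Tendsto (fun Y : ℝ => (∑ t ∈ range (⌊Real.exp Y⌋₊ + 2), ind (P t)) / Real.exp Y -
      (({K : RealQuadraticField | K ∈ FY Y ∧ nm K = N ∧ P (tr K).toNat}).ncard : ℝ) /
        Real.exp Y) atTop (𝓝 0) := by
    apply squeeze_zero' _ _ missed_tendsto
    · filter_upwards with Y
      rw [← sub_div]
      apply div_nonneg _ (Real.exp_pos Y).le
      rw [ncard_eq, sub_nonneg]
      have e : (((range (⌊Real.exp Y⌋₊ + 2)).filter (fun t => t ∈ SN N Y ∧ P t)).card : ℝ) =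
          ∑ t ∈ range (⌊Real.exp Y⌋₊ + 2), ind (t ∈ SN N Y ∧ P t) := by
        rw [Finset.card_filter]
        push_cast
        apply Finset.sum_congr rfl
        intro x _
        unfold ind
        split_ifs <;> rfl
      rw [e]
      apply Finset.sum_le_sum
      intro t _
      exact ind_mono (fun h => h.2)
    · filter_upwards [eventually_ge_atTop 0] with Y hY
      rw [← sub_div]
      apply div_le_div_of_nonneg_right _ (Real.exp_pos Y).le
      refine le_trans ?_ (missed_bound N hN Y hY)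
      rw [ncard_eq]
      have e : ∀ (Q : ℕ → Prop) [DecidablePred Q],
          (((range (⌊Real.exp Y⌋₊ + 2)).filter Q).card : ℝ) =
          ∑ t ∈ range (⌊Real.exp Y⌋₊ + 2), ind (Q t) := by
        intro Q _
        rw [Finset.card_filter]
        push_cast
        apply Finset.sum_congr rfl
        intro x _
        unfold ind
        split_ifs <;> rfl
      rw [e, e, sub_le_iff_le_add, ← Finset.sum_add_distrib]
      apply Finset.sum_le_sum
      intro t _
      by_cases hS : t ∈ SN N Y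
      · have e1 : ind (t ∉ SN N Y) = 0 := by unfold ind; rw [if_neg (by simpa using hS)]
        rw [e1, zero_add]
        exact ind_mono (fun h => ⟨hS, h⟩)
      · have e1 : ind (t ∉ SN N Y) = 1 := by unfold ind; rw [if_pos hS]
        rw [e1]
        have := ind_nonneg (t ∈ SN N Y ∧ P t)
        have := ind_le_one (P t)
        linarith
  have h6 := h4.sub h5
  rw [sub_zero] at h6
  refine h6.congr (fun Y => ?_)
  ring

theorem ind_forall (S : Finset ℕ) (Q : ℕ → Prop) :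
    ind (∀ p ∈ S, Q p) = ∏ p ∈ S, ind (Q p) := by
  induction S using Finset.induction_on with
  | empty => simp [ind]
  | insert p S hp ih =>
    rw [Finset.prod_insert hp, ← ih]
    unfold ind
    by_cases h1 : Q p
    · by_cases h2 : ∀ q ∈ S, Q q
      · rw [if_pos h1, if_pos h2, if_pos (by
          intro q hq
          rcases Finset.mem_insert.1 hq with h | h
          · rw [h]; exact h1
          · exact h2 q h)]
        norm_num
      · rw [if_pos h1, if_neg h2, if_neg (fun h => h2 (fun q hq => h q (Finset.mem_insert_of_mem hq)))]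
        norm_num
    · rw [if_neg h1, if_neg (fun h => h1 (h p (Finset.mem_insert_self p S)))]
      norm_num

theorem ind_iff (P Q : Prop) : ind (P ↔ Q) = if Q then ind P else 1 - ind P := by
  unfold ind
  by_cases hP : P <;> by_cases hQ : Q <;> simp [hP, hQ]

theorem MV_pattern (N : ℤ) (hN : N = 1 ∨ N = -1) (S W : Finset ℕ)
    (hS : ∀ p ∈ S, p.Prime ∧ p ≠ 2) :
    MV (fun t : ℕ => ind (∀ p ∈ S, (LC N p t ↔ p ∈ W)))
      (∏ p ∈ S, if p ∈ W then dens N p else 1 - dens N p) := by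
  have h := (LD_prod S (fun p t => if p ∈ W then ind (LC N p t) else 1 - ind (LC N p t))
    (fun p => if p ∈ W then dens N p else 1 - dens N p) (by
      intro p hp
      by_cases hW : p ∈ W
      · simp only [if_pos hW]
        exact LD_local N hN p (hS p hp).1 (hS p hp).2
      · simp only [if_neg hW]
        exact (LD_local N hN p (hS p hp).1 (hS p hp).2).compl)).tendsto
  refine h.congr (fun t => ?_)
  rw [ind_forall]
  apply Finset.prod_congr rfl
  intro p _
  rw [ind_iff]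
  split_ifs <;> rfl

theorem pattern_split (Y : ℝ) (Q : ℤ → ℕ → Prop) :
    ({K : RealQuadraticField | K ∈ FY Y ∧ Q (nm K) (tr K).toNat}).ncard =
      ({K : RealQuadraticField | K ∈ FY Y ∧ nm K = 1 ∧ Q 1 (tr K).toNat}).ncard +
      ({K : RealQuadraticField | K ∈ FY Y ∧ nm K = -1 ∧ Q (-1) (tr K).toNat}).ncard := by
  have hfin := FY_finite Y
  rw [← Set.ncard_union_eq _ (hfin.subset (fun K hK => hK.1)) (hfin.subset (fun K hK => hK.1))]
  · congr 1
    ext K
    constructor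
    · rintro ⟨h1, h2⟩
      rcases (fu_spec K).2.1 with h | h
      · left; exact ⟨h1, h, by rw [← h]; exact h2⟩
      · right; exact ⟨h1, h, by rw [← h]; exact h2⟩
    · rintro (⟨h1, h, h2⟩ | ⟨h1, h, h2⟩)
      · exact ⟨h1, by rw [h]; exact h2⟩
      · exact ⟨h1, by rw [h]; exact h2⟩
  · rw [Set.disjoint_left]
    intro K h1 h2
    have := h1.2.1.symm.trans h2.2.1
    exact absurd this (by decide)

theorem count_all (Q : ℤ → ℕ → Prop) (a b : ℝ) (ha : MV (fun t => ind (Q 1 t)) a)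
    (hb : MV (fun t => ind (Q (-1) t)) b) :
    Tendsto (fun Y : ℝ =>
      (({K : RealQuadraticField | K ∈ FY Y ∧ Q (nm K) (tr K).toNat}).ncard : ℝ) /
        Real.exp Y) atTop (𝓝 (a + b)) := by
  have h1 := (count_tendsto 1 (Or.inl rfl) (Q 1) a ha).add
    (count_tendsto (-1) (Or.inr rfl) (Q (-1)) b hb)
  refine h1.congr (fun Y => ?_)
  rw [← add_div, pattern_split Y Q]
  push_cast
  rfl

theorem main (S W : Finset ℕ) (hS : ∀ p ∈ S, p.Prime ∧ p ≠ 2) :
    Tendsto (fun Y : ℝ =>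
      (({K : RealQuadraticField | regulator K.1 ≤ Y ∧
        ∀ p ∈ S, (IsWSS K.1 p ↔ p ∈ W)}).ncard : ℝ) /
      (({K : RealQuadraticField | regulator K.1 ≤ Y}).ncard : ℝ)) atTop
      (𝓝 (((∏ p ∈ S, if p ∈ W then dens 1 p else 1 - dens 1 p) +
        ∏ p ∈ S, if p ∈ W then dens (-1) p else 1 - dens (-1) p) / 2)) := by
  have h1 := count_all (fun N t => ∀ p ∈ S, (LC N p t ↔ p ∈ W)) _ _
    (MV_pattern 1 (Or.inl rfl) S W hS) (MV_pattern (-1) (Or.inr rfl) S W hS)
  have h2 := count_all (fun _ _ => True) 1 1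
    (MV_one.congr (fun t => by simp [ind])) (MV_one.congr (fun t => by simp [ind]))
  have h3 := h1.div h2 (by norm_num)
  have e2 : (1 : ℝ) + 1 = 2 := by norm_num
  rw [e2] at h3
  refine h3.congr (fun Y => ?_)
  have hs1 : {K : RealQuadraticField | K ∈ FY Y ∧
      ∀ p ∈ S, (LC (nm K) p ((tr K).toNat : ℕ) ↔ p ∈ W)} =
      {K : RealQuadraticField | regulator K.1 ≤ Y ∧ ∀ p ∈ S, (IsWSS K.1 p ↔ p ∈ W)} := by
    ext K
    have ht : (((tr K).toNat : ℕ) : ℤ) = tr K := Int.toNat_of_nonneg (by have := one_le_tr K; omega)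
    have hK : (K ∈ FY Y) ↔ regulator K.1 ≤ Y := Iff.rfl
    simp only [Set.mem_ofPred_eq, ht, hK]
    apply and_congr_right
    intro _
    apply forall₂_congr
    intro p hp
    rw [isWSS_iff_LC K p (hS p hp).1 (hS p hp).2]
  have hs2 : {K : RealQuadraticField | K ∈ FY Y ∧ True} =
      {K : RealQuadraticField | regulator K.1 ≤ Y} := by
    ext K
    have hK : (K ∈ FY Y) ↔ regulator K.1 ≤ Y := Iff.rfl
    simp only [Set.mem_ofPred_eq, and_true, hK]
  simp only [Pi.div_apply]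
  rw [hs1, hs2]
  have := (Real.exp_pos Y).ne'
  rw [div_div_div_cancel_right₀ this]

end Pool.Agent.Lib.MP_d470cf_nt.Loc
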