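import Pool.Agent.Lib.MP_d470cf_nt.WSS

set_option autoImplicit false

open Polynomial

namespace Pool.Agent.Lib.MP_d470cf_nt.Loc

open Pool.Agent.Lib.MP_d470cf_nt

theorem coprime_cast {R : Type*} [CommRing R] (p : ℕ) (hp : p.Prime) (d : ℤ)
    (hd : ¬ (p : ℤ) ∣ d) (k : ℕ) : IsCoprime ((p : R) ^ k) (d : R) := by
  have hcop : IsCoprime ((p : ℤ) ^ k) d :=
    ((Nat.prime_iff_prime_int.1 hp).coprime_iff_not_dvd.2 hd).pow_left
  have := hcop.map (Int.castRingHom R)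
  simpa using this

theorem dvd_of_mul {R : Type*} [CommRing R] (p : ℕ) (hp : p.Prime) (d : ℤ)
    (hd : ¬ (p : ℤ) ∣ d) (k : ℕ) (x : R) (h : (p : R) ^ k ∣ (d : R) * x) : (p : R) ^ k ∣ x :=
  (coprime_cast p hp d hd k).dvd_of_dvd_mul_left h

theorem not_dvd_two (p : ℕ) (hp : p.Prime) (hp2 : p ≠ 2) : ¬ (p : ℤ) ∣ 2 := by
  intro h
  have : p ∣ 2 := by exact_mod_cast h
  exact hp2 ((Nat.prime_dvd_prime_iff_eq hp Nat.prime_two).1 this)

/-- Frobenius acts on the unit `α` trivially or by conjugation, modulo `p`. -/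
theorem frob {R : Type*} [CommRing R] (p : ℕ) (hp : p.Prime)
    (hp2 : p ≠ 2) (t N : ℤ) (α : R)
    (hα : α ^ 2 - t * α + N = 0) (ε : ℤ)
    (hε : (p : ℤ) ∣ (t ^ 2 - 4 * N) ^ (p / 2) - ε) :
    (ε = 1 → (p : R) ∣ α ^ p - α) ∧ (ε = -1 → (p : R) ∣ α ^ p - (t - α)) := by
  have : Fact p.Prime := ⟨hp⟩
  have hodd : p % 2 = 1 := by
    rcases hp.eq_two_or_odd with h | h
    · exact absurd h hp2
    · exact h
  have hp_eq : p = 2 * (p / 2) + 1 := by omega
  obtain ⟨r, hr⟩ := exists_add_pow_prime_eq hp (t : R) (2 * α - t)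
  have hδ : (2 * α - (t : R)) ^ 2 = ((t ^ 2 - 4 * N : ℤ) : R) := by
    push_cast
    linear_combination 4 * hα
  have hδp : (2 * α - (t : R)) ^ p = (2 * α - t) * (((t ^ 2 - 4 * N) ^ (p / 2) : ℤ) : R) := by
    conv_lhs => rw [hp_eq]
    rw [pow_succ, pow_mul, hδ]
    push_cast
    ring
  have hfer : ∀ z : ℤ, ∃ w : ℤ, z ^ p = z + p * w := by
    intro z
    have : (p : ℤ) ∣ z ^ p - z := by
      rw [← ZMod.intCast_zmod_eq_zero_iff_dvd]
      push_cast
      rw [ZMod.pow_card, sub_self]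
    obtain ⟨w, hw⟩ := this
    exact ⟨w, by linear_combination hw⟩
  obtain ⟨w1, hw1⟩ := hfer t
  obtain ⟨w2, hw2⟩ := hfer 2
  obtain ⟨w3, hw3⟩ := hε
  have hw1R : (t : R) ^ p = t + p * w1 := by exact_mod_cast congrArg (fun z : ℤ => (z : R)) hw1
  have hw2R : (2 : R) ^ p = 2 + p * w2 := by exact_mod_cast congrArg (fun z : ℤ => (z : R)) hw2
  have hw3R : (((t ^ 2 - 4 * N) ^ (p / 2) : ℤ) : R) = (ε : R) + (p : R) * w3 := by
    have : (t ^ 2 - 4 * N) ^ (p / 2) = ε + p * w3 := by linear_combination hw3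
    rw [this]; push_cast; ring
  have hkey : (2 + (p : R) * w2) * α ^ p = (t + p * w1) +
      (2 * α - t) * ((ε : R) + (p : R) * w3) + p * (t * (2 * α - t) * r) := by
    have e1 : (t : R) + (2 * α - t) = 2 * α := by ring
    rw [e1, mul_pow, hδp, hw1R, hw2R, hw3R] at hr
    linear_combination hr
  have h2p := not_dvd_two p hp hp2
  constructor
  · intro hl
    have : (p : R) ^ 1 ∣ α ^ p - α := by
      apply dvd_of_mul p hp 2 h2p
      rw [hl] at hkey
      refine ⟨w1 + (2 * α - t) * w3 + t * (2 * α - t) * r - w2 * α ^ p, ?_⟩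
      push_cast at hkey ⊢
      linear_combination hkey
    simpa using this
  · intro hl
    have : (p : R) ^ 1 ∣ α ^ p - (t - α) := by
      apply dvd_of_mul p hp 2 h2p
      rw [hl] at hkey
      refine ⟨w1 + (2 * α - t) * w3 + t * (2 * α - t) * r - w2 * α ^ p, ?_⟩
      push_cast at hkey ⊢
      linear_combination hkey
    simpa using this

theorem V_cast {R : Type*} [CommRing R] (p : ℕ) (t N : ℤ) (α : R)
    (hα : α ^ 2 - t * α + N = 0) : ((V N p t : ℤ) : R) = α ^ p + ((t : R) - α) ^ p := by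
  have hmul : α * (t - α) = N := by linear_combination -hα
  have h1 := dickson_eval_add (N : R) α (t - α) hmul p
  have h2 : α + ((t : R) - α) = t := by ring
  rw [h2] at h1
  rw [← h1]
  unfold V
  have h3 : (dickson 1 (N : R) p) = (dickson 1 N p).map (Int.castRingHom R) := by
    rw [map_dickson]; simp
  rw [h3, eval_intCast_map]
  simp

theorem N_facts (N : ℤ) (hN : N = 1 ∨ N = -1) (p : ℕ) (hodd : p % 2 = 1) :
    N ^ p = N ∧ N ^ 2 = 1 := by
  rcases hN with h | h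
  · rw [h]; simp
  · rw [h]; exact ⟨Odd.neg_one_pow (Nat.odd_iff.2 hodd), by norm_num⟩

/-- If `α ^ p = α` modulo `p ^ 2`, then `V = t` modulo `p ^ 2`. -/
theorem V_of_split {R : Type*} [CommRing R] (p : ℕ) (hodd : p % 2 = 1) (t N : ℤ)
    (hN : N = 1 ∨ N = -1) (α : R) (hα : α ^ 2 - t * α + N = 0) (I : R)
    (h : I ∣ α ^ p - α) : I ∣ ((V N p t - t : ℤ) : R) := by
  obtain ⟨h1, h2⟩ := N_facts N hN p hodd
  have h1R : (N : R) ^ p = N := by exact_mod_cast congrArg (fun z : ℤ => (z : R)) h1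
  have h2R : (N : R) ^ 2 = 1 := by exact_mod_cast congrArg (fun z : ℤ => (z : R)) h2
  obtain ⟨b, hb⟩ : ∃ b : R, b = t - α := ⟨_, rfl⟩
  have hmul : α * b = N := by rw [hb]; linear_combination -hα
  have hmulp : α ^ p * b ^ p = N := by rw [← mul_pow, hmul, h1R]
  have hV := V_cast p t N α hα
  rw [← hb] at hV
  obtain ⟨c, hc⟩ := h
  have hbp : b ^ p - b = b ^ p * b * N * (α - α ^ p) := by
    linear_combination (-(b ^ p * N)) * hmul + (b * N) * hmulp + (b - b ^ p) * h2R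
  have ht : (t : R) = α + b := by rw [hb]; ring
  refine ⟨c * (1 - b ^ p * b * N), ?_⟩
  push_cast
  rw [hV, ht]
  linear_combination hbp + (1 - b ^ p * b * N) * hc

/-- If `α ^ p` is the conjugate of `α` modulo `p ^ 2`, then `V = t` modulo `p ^ 2`. -/
theorem V_of_inert {R : Type*} [CommRing R] (p : ℕ) (hodd : p % 2 = 1) (t N : ℤ)
    (hN : N = 1 ∨ N = -1) (α : R) (hα : α ^ 2 - t * α + N = 0) (I : R)
    (h : I ∣ α ^ p - (t - α)) : I ∣ ((V N p t - t : ℤ) : R) := by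
  obtain ⟨h1, h2⟩ := N_facts N hN p hodd
  have h1R : (N : R) ^ p = N := by exact_mod_cast congrArg (fun z : ℤ => (z : R)) h1
  have h2R : (N : R) ^ 2 = 1 := by exact_mod_cast congrArg (fun z : ℤ => (z : R)) h2
  obtain ⟨b, hb⟩ : ∃ b : R, b = t - α := ⟨_, rfl⟩
  have hmul : α * b = N := by rw [hb]; linear_combination -hα
  have hmulp : α ^ p * b ^ p = N := by rw [← mul_pow, hmul, h1R]
  have hV := V_cast p t N α hα
  rw [← hb] at hV h
  obtain ⟨c, hc⟩ := h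
  have hbp : b ^ p - α = b ^ p * α * N * (b - α ^ p) := by
    linear_combination (-(b ^ p * N)) * hmul + (α * N) * hmulp + (α - b ^ p) * h2R
  have ht : (t : R) = α + b := by rw [hb]; ring
  refine ⟨c * (1 - b ^ p * α * N), ?_⟩
  push_cast
  rw [hV, ht]
  linear_combination hbp + (1 - b ^ p * α * N) * hc

/-- In the inert case the Wall-Sun-Sun congruence implies `α ^ p = t - α` modulo `p ^ 2`. -/
theorem inert_of_pow {R : Type*} [CommRing R] [IsDomain R] [CharZero R] (p : ℕ) (hp : p.Prime)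
    (hp2 : p ≠ 2) (t N : ℤ) (hN : N = 1 ∨ N = -1) (α : R) (hα : α ^ 2 - t * α + N = 0)
    (hf : (p : R) ∣ α ^ p - (t - α)) (h : (p : R) ^ 2 ∣ α ^ (2 * p + 2) - 1) :
    (p : R) ^ 2 ∣ α ^ p - (t - α) := by
  have hodd : p % 2 = 1 := by
    rcases hp.eq_two_or_odd with h | h
    · exact absurd h hp2
    · exact h
  obtain ⟨h1, h2⟩ := N_facts N hN p hodd
  have h2R : (N : R) ^ 2 = 1 := by exact_mod_cast congrArg (fun z : ℤ => (z : R)) h2
  have hp0 : (p : R) ≠ 0 := by exact_mod_cast hp.ne_zero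
  obtain ⟨b, hb⟩ : ∃ b : R, b = t - α := ⟨_, rfl⟩
  have hmul : α * b = N := by rw [hb]; linear_combination -hα
  rw [← hb] at hf ⊢
  obtain ⟨g, hg⟩ := hf
  obtain ⟨c, hc⟩ := h
  have hx : α ^ (p + 1) - N = p * (α * g) := by
    rw [pow_succ, ← hmul]; linear_combination α * hg
  have hprod : (α ^ (p + 1) - N) * (α ^ (p + 1) + N) = (p : R) ^ 2 * c := by
    rw [← hc]; linear_combination (-1 : R) * h2R
  have h5 : (α * g) * ((p : R) * (α * g) + 2 * N) = (p : R) * c := by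
    apply mul_left_cancel₀ hp0
    have e : α ^ (p + 1) + N = p * (α * g) + 2 * N := by linear_combination hx
    rw [hx, e] at hprod
    linear_combination hprod
  have h2p := not_dvd_two p hp hp2
  have h2N : ¬ (p : ℤ) ∣ 2 * N := by
    rcases hN with h | h
    · rw [h]; simpa using h2p
    · rw [h]; simpa using h2p
  have h6 : (p : R) ^ 1 ∣ α * g := by
    apply dvd_of_mul p hp (2 * N) h2N 1
    refine ⟨c - (α * g) ^ 2, ?_⟩
    push_cast
    linear_combination h5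
  rw [pow_one] at h6
  obtain ⟨d, hd⟩ := h6
  refine ⟨N * b * d, ?_⟩
  have e : α ^ p - b = N * b * (α ^ (p + 1) - N) := by
    rw [pow_succ]
    linear_combination (-(N : R) * α ^ p) * hmul + (b - α ^ p) * h2R
  rw [e, hx, hd]
  ring

/-- The ramified-like case: `p ^ 2 ∣ t ^ 2 - 4 N`. -/
theorem pow_sub_one_iff {R : Type*} [CommRing R] (p : ℕ) (hp : p.Prime)
    (hp2 : p ≠ 2) (t N : ℤ) (hN : N = 1 ∨ N = -1) (α : R) (hα : α ^ 2 - t * α + N = 0)
    (hd : (p : ℤ) ^ 2 ∣ t ^ 2 - 4 * N) (k : ℕ) (hpk : ¬ p ∣ k) (hNk : N ^ k = 1) :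
    (p : R) ^ 2 ∣ α ^ (2 * k) - 1 ↔ (p : R) ^ 2 ∣ 2 * α - t := by
  have h2p := not_dvd_two p hp hp2
  have hpZ := Nat.prime_iff_prime_int.1 hp
  have hpt : ¬ (p : ℤ) ∣ t := by
    intro h
    have h1 : (p : ℤ) ∣ 4 * N := by
      have h3 : (p : ℤ) ∣ t ^ 2 - 4 * N := (dvd_pow_self _ two_ne_zero).trans hd
      have h4 : (p : ℤ) ∣ t ^ 2 := dvd_pow h two_ne_zero
      have := dvd_sub h4 h3
      simpa using this
    have h5 : (p : ℤ) ∣ 4 := by
      rcases hN with h | h <;> rw [h] at h1 <;> simpa using h1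
    have h6 : (p : ℤ) ∣ 2 * 2 := by norm_num; exact h5
    rcases hpZ.dvd_or_dvd h6 with h | h <;> exact h2p h
  obtain ⟨δ, hδ⟩ : ∃ δ : R, δ = 2 * α - t := ⟨_, rfl⟩
  have hδ2 : δ ^ 2 = ((t ^ 2 - 4 * N : ℤ) : R) := by
    rw [hδ]; push_cast; linear_combination 4 * hα
  obtain ⟨w, hw⟩ := hd
  obtain ⟨c, hc⟩ := Polynomial.powAddExpansion (t : R) δ (2 * k)
  have hsum : (t : R) + δ = 2 * α := by rw [hδ]; ring
  rw [hsum, mul_pow, hδ2, hw] at hc
  -- t ^ (2k) = (4N)^k modulo p^2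
  have ht2 : (p : ℤ) ^ 2 ∣ t ^ (2 * k) - 2 ^ (2 * k) := by
    have h1 : (t ^ 2) - (4 * N) ∣ (t ^ 2) ^ k - (4 * N) ^ k := sub_dvd_pow_sub_pow _ _ k
    have h2 : (p : ℤ) ^ 2 ∣ (t ^ 2) ^ k - (4 * N) ^ k := (Dvd.intro w hw.symm).trans h1
    rw [mul_pow, hNk, mul_one] at h2
    rw [pow_mul, pow_mul]
    norm_num
    exact h2
  obtain ⟨v, hv⟩ := ht2
  have hvR : (t : R) ^ (2 * k) = 2 ^ (2 * k) + (p : R) ^ 2 * v := by
    have : t ^ (2 * k) = 2 ^ (2 * k) + (p : ℤ) ^ 2 * v := by linear_combination hv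
    exact_mod_cast congrArg (fun z : ℤ => (z : R)) this
  have hkey : (2 : R) ^ (2 * k) * (α ^ (2 * k) - 1) =
      ((2 * k : ℕ) : R) * (t : R) ^ (2 * k - 1) * δ + (p : R) ^ 2 * (v + c * w) := by
    rw [hvR] at hc
    push_cast at hc ⊢
    linear_combination hc
  have hd1 : ¬ (p : ℤ) ∣ 2 ^ (2 * k) := fun h => h2p (hpZ.dvd_of_dvd_pow h)
  have hd2 : ¬ (p : ℤ) ∣ ((2 * k : ℕ) : ℤ) * t ^ (2 * k - 1) := by
    intro h
    rcases hpZ.dvd_or_dvd h with h | h
    · push_cast at h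
      rcases hpZ.dvd_or_dvd h with h | h
      · exact h2p h
      · exact hpk (by exact_mod_cast h)
    · exact hpt (hpZ.dvd_of_dvd_pow h)
  rw [← hδ]
  constructor
  · intro h
    apply dvd_of_mul p hp (((2 * k : ℕ) : ℤ) * t ^ (2 * k - 1)) hd2 2
    have h3 : (p : R) ^ 2 ∣ (2 : R) ^ (2 * k) * (α ^ (2 * k) - 1) := dvd_mul_of_dvd_right h _
    rw [hkey] at h3
    have h4 := (dvd_add_left (Dvd.intro _ rfl)).1 h3
    push_cast at h4 ⊢
    exact h4
  · intro h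
    apply dvd_of_mul p hp (2 ^ (2 * k)) hd1 2
    push_cast
    rw [hkey]
    exact dvd_add (dvd_mul_of_dvd_right h _) (Dvd.intro _ rfl)

end Pool.Agent.Lib.MP_d470cf_nt.Loc
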