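import Pool.Agent.Lib.MP_d470cf_nt.Loc.Algebra

set_option autoImplicit false

open NumberField Module

namespace Pool.Agent.Lib.MP_d470cf_nt.Loc

open Pool.Agent.Lib.MP_d470cf_nt

/-- divisibility of integers can be tested in the ring of integers -/
theorem int_dvd_of_dvd (K : Type*) [Field K] [NumberField K] (h : finrank ℚ K = 2) (m z : ℤ)
    (hmz : (m : 𝓞 K) ∣ (z : 𝓞 K)) : m ∣ z := by
  have h2 : finrank ℤ (𝓞 K) = 2 := by rw [RingOfIntegers.rank, h]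
  have hn : ∀ w : ℤ, Algebra.norm ℤ (w : 𝓞 K) = w ^ 2 := by
    intro w
    have := Algebra.norm_algebraMap_of_basis (finBasisOfFinrankEq ℤ (𝓞 K) h2) w
    simpa using this
  obtain ⟨c, hc⟩ := hmz
  have h3 := congrArg (Algebra.norm ℤ) hc
  rw [map_mul, hn, hn] at h3
  exact (Int.pow_dvd_pow_iff two_ne_zero).1 (Dvd.intro _ h3.symm)

/-- The discriminant of a quadratic field is not divisible by the square of an odd prime. -/
theorem not_sq_dvd_discr (K : Type*) [Field K] [NumberField K] (h : finrank ℚ K = 2) (p : ℕ)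
    (hp : p.Prime) (hp2 : p ≠ 2) : ¬ (p : ℤ) ^ 2 ∣ discr K := by
  intro hdvd
  have h2 : finrank ℤ (𝓞 K) = 2 := by rw [RingOfIntegers.rank, h]
  let b : Basis (Fin 2) ℤ (𝓞 K) := finBasisOfFinrankEq ℤ (𝓞 K) h2
  -- coordinates of one
  obtain ⟨x, hx⟩ : ∃ x : Fin 2 → ℤ, x = fun i => b.repr 1 i := ⟨_, rfl⟩
  have h1 : (1 : 𝓞 K) = (x 0 : 𝓞 K) * b 0 + (x 1 : 𝓞 K) * b 1 := by
    have := b.sum_repr 1
    rw [Fin.sum_univ_two, zsmul_eq_mul, zsmul_eq_mul] at this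
    rw [hx]; exact this.symm
  have hg : IsCoprime (x 0) (x 1) := by
    rw [Int.isCoprime_iff_gcd_eq_one]
    by_contra hne
    obtain ⟨a, ha⟩ := Int.gcd_dvd_left (a := x 0) (b := x 1)
    obtain ⟨c, hc⟩ := Int.gcd_dvd_right (a := x 0) (b := x 1)
    have h3 : ((Int.gcd (x 0) (x 1) : ℤ) : 𝓞 K) ∣ ((1 : ℤ) : 𝓞 K) := by
      have haR := congrArg (fun z : ℤ => (z : 𝓞 K)) ha
      have hcR := congrArg (fun z : ℤ => (z : 𝓞 K)) hc
      refine ⟨(a : 𝓞 K) * b 0 + (c : 𝓞 K) * b 1, ?_⟩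
      push_cast at haR hcR ⊢
      linear_combination h1 + (b 0) * haR + (b 1) * hcR
    have h4 := int_dvd_of_dvd K h _ _ h3
    have h5 : Int.gcd (x 0) (x 1) ∣ 1 := by exact_mod_cast h4
    exact hne (Nat.dvd_one.1 h5)
  obtain ⟨u, v, huv⟩ := hg
  -- ω = -v b 0 + u b 1
  obtain ⟨ω, hω⟩ : ∃ ω : 𝓞 K, ω = (-v : ℤ) • b 0 + u • b 1 := ⟨_, rfl⟩
  -- the functional det (1, ·)
  obtain ⟨φ, hφ⟩ : ∃ φ : 𝓞 K →ₗ[ℤ] ℤ, ∀ z, φ z = x 0 * b.repr z 1 - x 1 * b.repr z 0 :=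
    ⟨{ toFun := fun z => x 0 * b.repr z 1 - x 1 * b.repr z 0
       map_add' := by intro y z; simp only [map_add, Finsupp.add_apply]; ring
       map_smul' := by
        intro r z
        simp only [map_smul, Finsupp.smul_apply, smul_eq_mul, RingHom.id_apply]; ring },
      fun _ => rfl⟩
  have hφ1 : φ 1 = 0 := by rw [hφ, hx]; ring
  have hφω : φ ω = 1 := by
    rw [hφ, hω]
    simp only [map_add, map_smul, Basis.repr_self, Finsupp.add_apply, Finsupp.smul_apply,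
      Finsupp.single_eq_same, smul_eq_mul]
    rw [Finsupp.single_eq_of_ne (by decide), Finsupp.single_eq_of_ne (by decide)]
    linear_combination huv
  -- the relation
  obtain ⟨f, hf⟩ : ∃ f : ℤ, f = (b.toMatrix ![1, ω]).det := ⟨_, rfl⟩
  have hdet : f = 1 := by
    rw [hf, Matrix.det_fin_two]
    have e0 : (![1, ω] : Fin 2 → 𝓞 K) 0 = 1 := rfl
    have e1 : (![1, ω] : Fin 2 → 𝓞 K) 1 = ω := rfl
    simp only [Basis.toMatrix_apply, e0, e1]
    rw [← hφω, hφ, hx]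
    ring
  have h3 := Algebra.discr_of_matrix_vecMul b (b.toMatrix ![1, ω])
  rw [Basis.toMatrix_map_vecMul, discr_eq_discr, ← hf, hdet, one_pow, one_mul] at h3
  have hq := quad_eq K h ω
  obtain ⟨t, ht⟩ : ∃ t : ℤ, t = Algebra.trace ℤ (𝓞 K) ω := ⟨_, rfl⟩
  obtain ⟨N, hN⟩ : ∃ N : ℤ, N = Algebra.norm ℤ ω := ⟨_, rfl⟩
  rw [← ht, ← hN] at hq
  have hD : t ^ 2 - 4 * N = discr K := by
    rw [← h3, Algebra.discr_def, Matrix.det_fin_two]
    simp only [Algebra.traceMatrix_apply, Algebra.traceForm_apply]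
    have e0 : (![1, ω] : Fin 2 → 𝓞 K) 0 = 1 := rfl
    have e1 : (![1, ω] : Fin 2 → 𝓞 K) 1 = ω := rfl
    rw [e0, e1]
    have t1 : Algebra.trace ℤ (𝓞 K) 1 = 2 := by
      have := Algebra.trace_algebraMap_of_basis b (1 : ℤ)
      simpa using this
    have t2 : Algebra.trace ℤ (𝓞 K) (ω * ω) = t ^ 2 - 2 * N := by
      have e2 : ω * ω = t • ω - N • (1 : 𝓞 K) := by
        rw [zsmul_eq_mul, zsmul_eq_mul]
        linear_combination hq
      rw [e2, map_sub, map_zsmul, map_zsmul, t1, ← ht]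
      simp only [smul_eq_mul]
      ring
    rw [one_mul, one_mul, mul_one, t1, t2, ← ht]
    ring
  have hsq : (p : 𝓞 K) ^ 2 ∣ (2 * ω - t) ^ 2 := by
    have : (2 * ω - (t : 𝓞 K)) ^ 2 = ((discr K : ℤ) : 𝓞 K) := by
      rw [← hD]; push_cast; linear_combination 4 * hq
    rw [this]
    obtain ⟨c, hc⟩ := hdvd
    rw [hc]
    push_cast
    exact Dvd.intro _ rfl
  have hlin : (p : 𝓞 K) ∣ 2 * ω - t := (IsIntegrallyClosed.pow_dvd_pow_iff two_ne_zero).1 hsq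
  obtain ⟨β, hβ⟩ := hlin
  have h4 := congrArg φ hβ
  have e1 : (2 * ω - (t : 𝓞 K)) = (2 : ℤ) • ω - t • (1 : 𝓞 K) := by
    rw [zsmul_eq_mul, zsmul_eq_mul]; push_cast; ring
  have e2 : ((p : 𝓞 K) * β) = (p : ℤ) • β := by
    rw [zsmul_eq_mul]; push_cast; ring
  rw [e1, e2, map_sub, map_smul, map_smul, map_smul, hφ1, hφω] at h4
  simp only [smul_eq_mul] at h4
  apply not_dvd_two p hp hp2
  exact ⟨φ β, by linarith⟩

end Pool.Agent.Lib.MP_d470cf_nt.Loc
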