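import Mathlib

set_option autoImplicit false

open Finset Filter Topology

namespace Pool.Agent.Lib.MP_d470cf_nt.Loc

/-- `f` has mean value `a`. -/
def MV (f : ℕ → ℝ) (a : ℝ) : Prop :=
  Tendsto (fun T : ℕ => (∑ t ∈ range T, f t) / (T : ℝ)) atTop (𝓝 a)

theorem MV.unique {f : ℕ → ℝ} {a b : ℝ} (h : MV f a) (h' : MV f b) : a = b :=
  tendsto_nhds_unique h h'

theorem MV.congr {f g : ℕ → ℝ} {a : ℝ} (h : MV f a) (hfg : ∀ t, f t = g t) : MV g a := by
  have : f = g := funext hfg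
  rwa [← this]

theorem MV.add {f g : ℕ → ℝ} {a b : ℝ} (hf : MV f a) (hg : MV g b) :
    MV (fun t => f t + g t) (a + b) := by
  unfold MV at *
  refine (Tendsto.add hf hg).congr (fun T => ?_)
  rw [sum_add_distrib, add_div]

theorem MV.sub {f g : ℕ → ℝ} {a b : ℝ} (hf : MV f a) (hg : MV g b) :
    MV (fun t => f t - g t) (a - b) := by
  unfold MV at *
  refine (Tendsto.sub hf hg).congr (fun T => ?_)
  rw [sum_sub_distrib, sub_div]

theorem MV.nonneg {f : ℕ → ℝ} {a : ℝ} (hf : MV f a) (h : ∀ t, 0 ≤ f t) : 0 ≤ a :=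
  ge_of_tendsto' hf (fun T => div_nonneg (sum_nonneg (fun t _ => h t)) (Nat.cast_nonneg T))

theorem MV.le_one {f : ℕ → ℝ} {a : ℝ} (hf : MV f a) (h : ∀ t, f t ≤ 1) : a ≤ 1 := by
  refine le_of_tendsto' hf (fun T => ?_)
  apply div_le_one_of_le₀ _ (Nat.cast_nonneg T)
  calc ∑ t ∈ range T, f t ≤ ∑ _t ∈ range T, (1 : ℝ) := sum_le_sum (fun t _ => h t)
    _ = T := by simp

theorem MV_one : MV (fun _ => 1) 1 := by
  unfold MV
  apply tendsto_const_nhds.congr'
  filter_upwards [eventually_gt_atTop 0] with T hT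
  have : (T : ℝ) ≠ 0 := by positivity
  simp [this]

theorem sum_mul_range (f : ℕ → ℝ) (m : ℕ) (hf : Function.Periodic f m) (q : ℕ) :
    ∑ t ∈ range (m * q), f t = q * ∑ t ∈ range m, f t := by
  induction q with
  | zero => simp
  | succ q ih =>
    rw [Nat.mul_succ, sum_range_add, ih]
    have : ∀ x, f (m * q + x) = f x := by
      intro x
      have := hf.nat_mul q x
      rw [Nat.cast_id] at this
      rw [add_comm, mul_comm m q]; exact this
    simp only [this]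
    push_cast
    ring

theorem MV_periodic (f : ℕ → ℝ) (m : ℕ) (hm : 0 < m) (hf : Function.Periodic f m)
    (h0 : ∀ t, 0 ≤ f t) (h1 : ∀ t, f t ≤ 1) : MV f ((∑ t ∈ range m, f t) / m) := by
  unfold MV
  have hmR : (0 : ℝ) < m := by exact_mod_cast hm
  obtain ⟨S, hS⟩ : ∃ S : ℝ, S = ∑ t ∈ range m, f t := ⟨_, rfl⟩
  have hS0 : 0 ≤ S := by rw [hS]; exact sum_nonneg (fun t _ => h0 t)
  have hS1 : S ≤ m := by
    rw [hS]
    calc ∑ t ∈ range m, f t ≤ ∑ _t ∈ range m, (1 : ℝ) := sum_le_sum (fun t _ => h1 t)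
      _ = m := by simp
  rw [← hS]
  have key : ∀ T : ℕ, |(∑ t ∈ range T, f t) - T * (S / m)| ≤ m := by
    intro T
    obtain ⟨q, r, hr, hT⟩ : ∃ q r : ℕ, r < m ∧ T = m * q + r :=
      ⟨T / m, T % m, Nat.mod_lt _ hm, (Nat.div_add_mod T m).symm⟩
    rw [hT, sum_range_add, sum_mul_range f m hf q, ← hS]
    obtain ⟨R, hR⟩ : ∃ R : ℝ, R = ∑ x ∈ range r, f (m * q + x) := ⟨_, rfl⟩
    rw [← hR]
    have hR0 : 0 ≤ R := by rw [hR]; exact sum_nonneg (fun t _ => h0 _)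
    have hR1 : R ≤ r := by
      rw [hR]
      calc ∑ x ∈ range r, f (m * q + x) ≤ ∑ _x ∈ range r, (1 : ℝ) := sum_le_sum (fun t _ => h1 _)
        _ = r := by simp
    have hrm : (r : ℝ) ≤ m := by exact_mod_cast hr.le
    have hSm0 : 0 ≤ S / m := by positivity
    have hSm1 : S / m ≤ 1 := by rw [div_le_one hmR]; exact hS1
    have e : (q : ℝ) * S + R - ((m * q + r : ℕ) : ℝ) * (S / m) = R - r * (S / m) := by
      push_cast
      field_simp
      ring
    rw [e, abs_le]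
    have hr0 : (0 : ℝ) ≤ r := Nat.cast_nonneg r
    constructor
    · nlinarith
    · nlinarith
  have hlim : Tendsto (fun T : ℕ => (m : ℝ) / (T : ℝ)) atTop (𝓝 0) :=
    tendsto_const_div_atTop_nhds_zero_nat (m : ℝ)
  rw [tendsto_iff_norm_sub_tendsto_zero]
  apply squeeze_zero' (Eventually.of_forall (fun _ => norm_nonneg _)) _ hlim
  filter_upwards [eventually_gt_atTop 0] with T hT
  have hTR : (0 : ℝ) < T := by exact_mod_cast hT
  rw [Real.norm_eq_abs]
  have e : (∑ t ∈ range T, f t) / (T : ℝ) - S / m =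
      ((∑ t ∈ range T, f t) - T * (S / m)) / T := by
    field_simp
  rw [e, abs_div, abs_of_pos hTR]
  exact div_le_div_of_nonneg_right (key T) hTR.le

theorem sum_crt (f g : ℕ → ℝ) (m n : ℕ) (hm : 0 < m) (hn : 0 < n) (hmn : Nat.Coprime m n)
    (hf : Function.Periodic f m) (hg : Function.Periodic g n) :
    ∑ t ∈ range (m * n), f t * g t = (∑ t ∈ range m, f t) * ∑ t ∈ range n, g t := by
  rw [sum_mul_sum, ← sum_product']
  apply sum_bij (fun (t : ℕ) _ => (t % m, t % n))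
  · intro t _
    rw [mem_product, mem_range, mem_range]
    exact ⟨Nat.mod_lt _ hm, Nat.mod_lt _ hn⟩
  · intro a ha b hb hab
    rw [mem_range] at ha hb
    simp only [Prod.mk.injEq] at hab
    have h1 : a ≡ b [MOD m * n] := (Nat.modEq_and_modEq_iff_modEq_mul hmn).1 ⟨hab.1, hab.2⟩
    exact Nat.ModEq.eq_of_lt_of_lt h1 ha hb
  · rintro ⟨a, b⟩ hab
    rw [mem_product, mem_range, mem_range] at hab
    obtain ⟨c, hc1, hc2⟩ := Nat.chineseRemainder hmn a b
    refine ⟨c % (m * n), mem_range.2 (Nat.mod_lt _ (Nat.mul_pos hm hn)), ?_⟩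
    simp only [Prod.mk.injEq]
    rw [Nat.mod_mul_right_mod, Nat.mod_mul_left_mod]
    exact ⟨(show c % m = a % m from hc1).trans (Nat.mod_eq_of_lt hab.1),
      (show c % n = b % n from hc2).trans (Nat.mod_eq_of_lt hab.2)⟩
  · intro t _
    rw [hf.map_mod_nat, hg.map_mod_nat]

theorem MV.mul {f g : ℕ → ℝ} {a b : ℝ} (m n : ℕ) (hm : 0 < m) (hn : 0 < n)
    (hmn : Nat.Coprime m n) (hf : Function.Periodic f m) (hg : Function.Periodic g n)
    (hf0 : ∀ t, 0 ≤ f t) (hf1 : ∀ t, f t ≤ 1) (hg0 : ∀ t, 0 ≤ g t) (hg1 : ∀ t, g t ≤ 1)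
    (hfa : MV f a) (hgb : MV g b) : MV (fun t => f t * g t) (a * b) := by
  have h1 := hfa.unique (MV_periodic f m hm hf hf0 hf1)
  have h2 := hgb.unique (MV_periodic g n hn hg hg0 hg1)
  have hper : Function.Periodic (fun t => f t * g t) (m * n) := by
    intro t
    have e1 : f (t + m * n) = f t := by
      have := hf.nat_mul n t
      rw [Nat.cast_id] at this
      rw [mul_comm m n]; exact this
    have e2 : g (t + m * n) = g t := by
      have := hg.nat_mul m t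
      rwa [Nat.cast_id] at this
    simp only [e1, e2]
  have h3 := MV_periodic (fun t => f t * g t) (m * n) (Nat.mul_pos hm hn) hper
    (fun t => mul_nonneg (hf0 t) (hg0 t)) (fun t => mul_le_one₀ (hf1 t) (hg0 t) (hg1 t))
  rw [sum_crt f g m n hm hn hmn hf hg] at h3
  rw [h1, h2]
  push_cast at h3
  rwa [div_mul_div_comm]

/-- `f` is, up to arbitrarily small errors, given by congruence conditions modulo products of
primes in `S`, and has mean value `a`. -/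
def LD (S : Finset ℕ) (f : ℕ → ℝ) (a : ℝ) : Prop :=
  (0 ≤ a ∧ a ≤ 1) ∧ ∀ ε : ℝ, 0 < ε → ∃ m : ℕ, 0 < m ∧ (∀ q : ℕ, q.Prime → q ∣ m → q ∈ S) ∧
    ∃ (g h : ℕ → ℝ) (a₁ a₂ : ℝ), Function.Periodic g m ∧ Function.Periodic h m ∧
      (∀ t, 0 ≤ g t ∧ g t ≤ f t ∧ f t ≤ h t ∧ h t ≤ 1) ∧ MV g a₁ ∧ MV h a₂ ∧
      |a₁ - a| ≤ ε ∧ |a₂ - a| ≤ ε

theorem LD.compl {S : Finset ℕ} {f : ℕ → ℝ} {a : ℝ} (h : LD S f a) :
    LD S (fun t => 1 - f t) (1 - a) := by
  obtain ⟨⟨h0, h1⟩, h2⟩ := h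
  refine ⟨⟨by linarith, by linarith⟩, fun ε hε => ?_⟩
  obtain ⟨m, hm, hmS, g, k, a₁, a₂, hg, hk, hb, hg1, hk1, e1, e2⟩ := h2 ε hε
  refine ⟨m, hm, hmS, fun t => 1 - k t, fun t => 1 - g t, 1 - a₂, 1 - a₁, ?_, ?_, ?_,
    MV_one.sub hk1, MV_one.sub hg1, ?_, ?_⟩
  · intro t; simp only [hk t]
  · intro t; simp only [hg t]
  · intro t
    obtain ⟨b1, b2, b3, b4⟩ := hb t
    exact ⟨by linarith, by linarith, by linarith, by linarith⟩
  · rw [show 1 - a₂ - (1 - a) = -(a₂ - a) by ring, abs_neg]; exact e2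
  · rw [show 1 - a₁ - (1 - a) = -(a₁ - a) by ring, abs_neg]; exact e1

theorem LD.mul {S T : Finset ℕ} (hST : Disjoint S T) {f g : ℕ → ℝ} {a b : ℝ}
    (hf : LD S f a) (hg : LD T g b) : LD (S ∪ T) (fun t => f t * g t) (a * b) := by
  obtain ⟨⟨a0, a1⟩, hf⟩ := hf
  obtain ⟨⟨b0, b1⟩, hg⟩ := hg
  refine ⟨⟨mul_nonneg a0 b0, mul_le_one₀ a1 b0 b1⟩, fun ε hε => ?_⟩
  obtain ⟨m, hm, hmS, g₁, h₁, a₁, a₂, p1, p2, p3, p4, p5, p6, p7⟩ := hf (ε / 2) (by positivity)
  obtain ⟨n, hn, hnT, g₂, h₂, b₁, b₂, q1, q2, q3, q4, q5, q6, q7⟩ := hg (ε / 2) (by positivity)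
  have hcop : Nat.Coprime m n := by
    apply Nat.coprime_of_dvd
    intro k hk hkm hkn
    exact (Finset.disjoint_left.1 hST) (hmS k hk hkm) (hnT k hk hkn)
  have bound : ∀ x y : ℝ, 0 ≤ y → y ≤ 1 → |x - a| ≤ ε / 2 → |y - b| ≤ ε / 2 →
      |x * y - a * b| ≤ ε := by
    intro x y y0 y1 hx hy
    have e : x * y - a * b = (x - a) * y + a * (y - b) := by ring
    rw [e]
    calc |(x - a) * y + a * (y - b)| ≤ |(x - a) * y| + |a * (y - b)| := abs_add_le _ _
      _ = |x - a| * y + a * |y - b| := by rw [abs_mul, abs_mul, abs_of_nonneg y0, abs_of_nonneg a0]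
      _ ≤ ε / 2 * 1 + 1 * (ε / 2) := by
        apply add_le_add
        · exact mul_le_mul hx y1 y0 (by positivity)
        · exact mul_le_mul a1 hy (abs_nonneg _) zero_le_one
      _ = ε := by ring
  have hper : ∀ u v : ℕ → ℝ, Function.Periodic u m → Function.Periodic v n →
      Function.Periodic (fun t => u t * v t) (m * n) := by
    intro u v hu hv t
    have e1 : u (t + m * n) = u t := by
      have := hu.nat_mul n t
      rw [Nat.cast_id] at this
      rw [mul_comm m n]; exact this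
    have e2 : v (t + m * n) = v t := by
      have := hv.nat_mul m t
      rwa [Nat.cast_id] at this
    simp only [e1, e2]
  refine ⟨m * n, Nat.mul_pos hm hn, ?_, fun t => g₁ t * g₂ t, fun t => h₁ t * h₂ t,
    a₁ * b₁, a₂ * b₂, hper _ _ p1 q1, hper _ _ p2 q2, ?_, ?_, ?_, ?_, ?_⟩
  · intro q hq hqd
    rw [Finset.mem_union]
    rcases (hq.dvd_mul).1 hqd with h | h
    · exact Or.inl (hmS q hq h)
    · exact Or.inr (hnT q hq h)
  · intro t
    obtain ⟨c1, c2, c3, c4⟩ := p3 t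
    obtain ⟨d1, d2, d3, d4⟩ := q3 t
    refine ⟨mul_nonneg c1 d1, mul_le_mul c2 d2 d1 (c1.trans c2),
      mul_le_mul c3 d3 (d1.trans d2) ((c1.trans c2).trans c3),
      mul_le_one₀ c4 ((d1.trans d2).trans d3) d4⟩
  · exact MV.mul m n hm hn hcop p1 q1 (fun t => (p3 t).1)
      (fun t => ((p3 t).2.1.trans (p3 t).2.2.1).trans (p3 t).2.2.2) (fun t => (q3 t).1)
      (fun t => ((q3 t).2.1.trans (q3 t).2.2.1).trans (q3 t).2.2.2) p4 q4
  · exact MV.mul m n hm hn hcop p2 q2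
      (fun t => ((p3 t).1.trans (p3 t).2.1).trans (p3 t).2.2.1) (fun t => (p3 t).2.2.2)
      (fun t => ((q3 t).1.trans (q3 t).2.1).trans (q3 t).2.2.1) (fun t => (q3 t).2.2.2) p5 q5
  · exact bound _ _ (q4.nonneg (fun t => (q3 t).1))
      (q4.le_one (fun t => ((q3 t).2.1.trans (q3 t).2.2.1).trans (q3 t).2.2.2)) p6 q6
  · exact bound _ _ (q5.nonneg (fun t => ((q3 t).1.trans (q3 t).2.1).trans (q3 t).2.2.1))
      (q5.le_one (fun t => (q3 t).2.2.2)) p7 q7

theorem LD_empty : LD ∅ (fun _ => 1) 1 := by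
  refine ⟨⟨zero_le_one, le_refl 1⟩, fun ε hε => ⟨1, one_pos, ?_, fun _ => 1, fun _ => 1, 1, 1,
    fun _ => rfl, fun _ => rfl, fun _ => ⟨zero_le_one, le_refl _, le_refl _, le_refl _⟩,
    MV_one, MV_one, by simpa using hε.le, by simpa using hε.le⟩⟩
  intro q hq hq1
  exact absurd (Nat.dvd_one.1 hq1) hq.one_lt.ne'

theorem LD_prod (S : Finset ℕ) (f : ℕ → ℕ → ℝ) (a : ℕ → ℝ) (h : ∀ p ∈ S, LD {p} (f p) (a p)) :
    LD S (fun t => ∏ p ∈ S, f p t) (∏ p ∈ S, a p) := by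
  classical
  induction S using Finset.induction_on with
  | empty => simpa using LD_empty
  | insert p S hp ih =>
    have h1 := h p (mem_insert_self p S)
    have h2 := ih (fun q hq => h q (mem_insert_of_mem hq))
    have h3 := LD.mul (Finset.disjoint_singleton_left.2 hp) h1 h2
    rw [prod_insert hp]
    have e : (fun t => ∏ q ∈ insert p S, f q t) = fun t => f p t * ∏ q ∈ S, f q t := by
      funext t; rw [prod_insert hp]
    rw [e, insert_eq]
    exact h3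

theorem LD.tendsto {S : Finset ℕ} {f : ℕ → ℝ} {a : ℝ} (h : LD S f a) : MV f a := by
  unfold MV
  rw [Metric.tendsto_atTop]
  intro ε hε
  obtain ⟨m, hm, -, g, k, a₁, a₂, -, -, hb, hg1, hk1, e1, e2⟩ := h.2 (ε / 2) (by positivity)
  unfold MV at hg1 hk1
  rw [Metric.tendsto_atTop] at hg1 hk1
  obtain ⟨N1, hN1⟩ := hg1 (ε / 2) (by positivity)
  obtain ⟨N2, hN2⟩ := hk1 (ε / 2) (by positivity)
  refine ⟨max N1 N2, fun T hT => ?_⟩
  have h1 := hN1 T ((le_max_left _ _).trans hT)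
  have h2 := hN2 T ((le_max_right _ _).trans hT)
  rw [Real.dist_eq, abs_lt] at h1 h2 ⊢
  rw [abs_le] at e1 e2
  have h3 : (∑ t ∈ range T, g t) / (T : ℝ) ≤ (∑ t ∈ range T, f t) / (T : ℝ) :=
    div_le_div_of_nonneg_right (sum_le_sum (fun t _ => (hb t).2.1)) (Nat.cast_nonneg T)
  have h4 : (∑ t ∈ range T, f t) / (T : ℝ) ≤ (∑ t ∈ range T, k t) / (T : ℝ) :=
    div_le_div_of_nonneg_right (sum_le_sum (fun t _ => (hb t).2.2.1)) (Nat.cast_nonneg T)
  constructor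
  · linarith [h1.1, e1.1]
  · linarith [h2.2, e2.2]

end Pool.Agent.Lib.MP_d470cf_nt.Loc
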