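import Pool.Agent.Lib.MP_d470cf_nt.Loc.Count

set_option autoImplicit false

open NumberField Module NumberField.Units IntermediateField Finset Classical Filter Topology

namespace Pool.Agent.Lib.MP_d470cf_nt.Loc

open Pool.Agent.Lib.MP_d470cf_nt

theorem neg_norm_iff (K : RealQuadraticField) :
    (∃ u : (𝓞 K.1)ˣ, Algebra.norm ℤ (u : 𝓞 K.1) = -1) ↔ nm K = -1 := by
  obtain ⟨α, hα, hu⟩ := exists_fund K.1 K.2
  obtain ⟨k1, k2, k3, -⟩ := fu_spec K
  have hirr := not_rat_of_quad _ k1 _ _ k2 k3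
  have h2 := congrArg (rv K.1) (quad_eq K.1 K.2 (α : 𝓞 K.1))
  have h3 : (fu K) ^ 2 - (Algebra.trace ℤ (𝓞 K.1) (α : 𝓞 K.1) : ℤ) * fu K +
      (Algebra.norm ℤ (α : 𝓞 K.1) : ℤ) = 0 := by
    unfold fu
    rw [← hα]
    simpa using h2
  obtain ⟨-, e2⟩ := tr_nm_unique _ hirr _ _ _ _ k3 h3
  constructor
  · rintro ⟨u, hnu⟩
    rcases k2 with h | h
    · exfalso
      rw [h] at e2
      -- all units have norm one
      obtain ⟨f, hf⟩ : ∃ f : (𝓞 K.1)ˣ →* ℤˣ, ∀ v, ((f v : ℤˣ) : ℤ) = Algebra.norm ℤ (v : 𝓞 K.1) :=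
        ⟨Units.map (Algebra.norm ℤ), fun v => rfl⟩
      have hfα : f α = 1 := by
        apply Units.ext
        rw [hf, ← e2]; rfl
      have hneg : f (-1) = 1 := by
        apply Units.ext
        rw [hf]
        have h2' : finrank ℤ (𝓞 K.1) = 2 := by rw [RingOfIntegers.rank, K.2]
        have := Algebra.norm_algebraMap_of_basis (finBasisOfFinrankEq ℤ (𝓞 K.1) h2') (-1 : ℤ)
        simpa using this
      obtain ⟨n, hn | hn⟩ := hu u
      · have h4 : f u = 1 := by rw [hn, map_zpow, hfα, one_zpow]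
        have h5 := hf u
        rw [h4, hnu] at h5
        exact absurd h5 (by decide)
      · have h4 : f u = 1 := by
          rw [hn, ← neg_one_mul, map_mul, hneg, map_zpow, hfα, one_zpow, one_mul]
        have h5 := hf u
        rw [h4, hnu] at h5
        exact absurd h5 (by decide)
    · exact h
  · intro h
    exact ⟨α, by rw [← e2, h]⟩

theorem main_norm (N : ℤ) (hN : N = 1 ∨ N = -1) (S W : Finset ℕ)
    (hS : ∀ p ∈ S, p.Prime ∧ p ≠ 2) :
    Tendsto (fun Y : ℝ =>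
      (({K : RealQuadraticField | regulator K.1 ≤ Y ∧ nm K = N ∧
        ∀ p ∈ S, (IsWSS K.1 p ↔ p ∈ W)}).ncard : ℝ) /
      (({K : RealQuadraticField | regulator K.1 ≤ Y}).ncard : ℝ)) atTop
      (𝓝 ((∏ p ∈ S, if p ∈ W then dens N p else 1 - dens N p) / 2)) := by
  have h1 := count_tendsto N hN (fun t => ∀ p ∈ S, (LC N p t ↔ p ∈ W)) _
    (MV_pattern N hN S W hS)
  have h2 := count_all (fun _ _ => True) 1 1
    (MV_one.congr (fun t => by simp [ind])) (MV_one.congr (fun t => by simp [ind]))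
  have h3 := h1.div h2 (by norm_num)
  have e2 : (1 : ℝ) + 1 = 2 := by norm_num
  rw [e2] at h3
  refine h3.congr (fun Y => ?_)
  have hs1 : {K : RealQuadraticField | K ∈ FY Y ∧ nm K = N ∧
      ∀ p ∈ S, (LC N p ((tr K).toNat : ℕ) ↔ p ∈ W)} =
      {K : RealQuadraticField | regulator K.1 ≤ Y ∧ nm K = N ∧
        ∀ p ∈ S, (IsWSS K.1 p ↔ p ∈ W)} := by
    ext K
    have ht : (((tr K).toNat : ℕ) : ℤ) = tr K := Int.toNat_of_nonneg (by have := one_le_tr K; omega)
    have hK : (K ∈ FY Y) ↔ regulator K.1 ≤ Y := Iff.rfl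
    simp only [Set.mem_ofPred_eq, ht, hK]
    apply and_congr_right
    intro _
    apply and_congr_right
    intro hnm
    apply forall₂_congr
    intro p hp
    rw [isWSS_iff_LC K p (hS p hp).1 (hS p hp).2, hnm]
  have hs2 : {K : RealQuadraticField | K ∈ FY Y ∧ True} =
      {K : RealQuadraticField | regulator K.1 ≤ Y} := by
    ext K
    have hK : (K ∈ FY Y) ↔ regulator K.1 ≤ Y := Iff.rfl
    simp only [Set.mem_ofPred_eq, and_true, hK]
  simp only [Pi.div_apply]
  rw [hs1, hs2]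
  have := (Real.exp_pos Y).ne'
  rw [div_div_div_cancel_right₀ this]

end Pool.Agent.Lib.MP_d470cf_nt.Loc
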